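import Mathlib

/-!
# The action of Thompson's group on the rational line

`x_0` acts by `y ↦ y - 1`, `x_k` (`k ≥ 1`) fixes `y ≤ k - 1`, contracts `[k-1, k+1]` onto `[k-1, k]` and is
`y ↦ y - 1` for `y ≥ k + 1`. This is a right action of the group with the relations
`x_i x_k x_i⁻¹ = x_{k+1}` (`i < k`).
-/

set_option autoImplicit false

namespace Pool.Agent.Lib.MP_566f59_al

/-- The relators of Thompson's group `F`. -/
abbrev Rels : Set (FreeGroup ℕ) := {r : FreeGroup ℕ | ∃ i k : ℕ, i < k ∧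
  r = FreeGroup.of i * FreeGroup.of k * (FreeGroup.of i)⁻¹ * (FreeGroup.of (k + 1))⁻¹}

/-- Thompson's group `F`. -/
abbrev TF : Type := PresentedGroup Rels

/-- The generator `x_k`. -/
abbrev gx (k : ℕ) : TF := PresentedGroup.of k

theorem gx_rel {i k : ℕ} (h : i < k) : gx i * gx k * (gx i)⁻¹ = gx (k + 1) := by
  have h1 : (FreeGroup.of i * FreeGroup.of k * (FreeGroup.of i)⁻¹ * (FreeGroup.of (k + 1))⁻¹) ∈
      Subgroup.normalClosure Rels := Subgroup.subset_normalClosure ⟨i, k, h, rfl⟩
  have h2 : (PresentedGroup.mk Rels) (FreeGroup.of i * FreeGroup.of k * (FreeGroup.of i)⁻¹ *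
      (FreeGroup.of (k + 1))⁻¹) = 1 := by
    exact (QuotientGroup.eq_one_iff _).mpr h1
  rw [map_mul, map_mul, map_mul, map_inv, map_inv] at h2
  exact mul_inv_eq_one.mp h2

/-- The action of `x_k⁻¹`. -/
noncomputable def rf (k : ℕ) (y : ℚ) : ℚ :=
  if k = 0 then y + 1 else if y ≤ k - 1 then y else if y ≤ k then 2 * y - (k - 1) else y + 1

/-- The action of `x_k`. -/
noncomputable def sf (k : ℕ) (y : ℚ) : ℚ :=
  if k = 0 then y - 1 else if y ≤ k - 1 then y else if y ≤ k + 1 then (y + (k - 1)) / 2 else y - 1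

theorem rf_sf (k : ℕ) (y : ℚ) : rf k (sf k y) = y := by
  unfold rf sf
  split_ifs <;> linarith

theorem rf_strictMono (k : ℕ) : StrictMono (rf k) := by
  intro x y h
  unfold rf
  split_ifs <;> linarith

theorem rf_rel {i k : ℕ} (h : i < k) (y : ℚ) : rf (k + 1) (rf i y) = rf i (rf k y) := by
  have hk : (i : ℚ) + 1 ≤ k := by exact_mod_cast h
  have h1 : k ≠ 0 := by omega
  have e1 : ∀ z, rf (k + 1) z = if z ≤ (k : ℚ) then z else if z ≤ (k : ℚ) + 1 then 2 * z - k
      else z + 1 := by
    intro z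
    unfold rf
    rw [if_neg (Nat.succ_ne_zero k)]
    push_cast
    simp only [add_sub_cancel_right]
  have e2 : ∀ z, rf k z = if z ≤ (k : ℚ) - 1 then z else if z ≤ (k : ℚ) then 2 * z - (k - 1)
      else z + 1 := by
    intro z
    unfold rf
    rw [if_neg h1]
  rw [e1, e2]
  by_cases hi : i = 0
  · subst hi
    have e3 : ∀ z, rf 0 z = z + 1 := fun z => by unfold rf; rw [if_pos rfl]
    rw [e3, e3]
    split_ifs <;> linarith
  · have e3 : ∀ z, rf i z = if z ≤ (i : ℚ) - 1 then z else if z ≤ (i : ℚ) then 2 * z - (i - 1)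
      else z + 1 := by
      intro z
      unfold rf
      rw [if_neg hi]
    rw [e3, e3]
    split_ifs <;> linarith

/-- The order isomorphism given by `x_k⁻¹` in the action. -/
noncomputable def ro (k : ℕ) : ℚ ≃o ℚ :=
  StrictMono.orderIsoOfRightInverse (rf k) (rf_strictMono k) (sf k) (rf_sf k)

theorem ro_apply (k : ℕ) (y : ℚ) : ro k y = rf k y := rfl

theorem ro_inv_apply (k : ℕ) (y : ℚ) : (ro k)⁻¹ y = sf k y := rfl

/-- The homomorphism to the order automorphisms of `ℚ`. -/
noncomputable def th : TF →* (ℚ ≃o ℚ) :=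
  PresentedGroup.toGroup (f := ro) (by
    rintro r ⟨i, k, hik, rfl⟩
    rw [map_mul, map_mul, map_mul, map_inv, map_inv, FreeGroup.lift_apply_of,
      FreeGroup.lift_apply_of, FreeGroup.lift_apply_of, mul_inv_eq_one, mul_inv_eq_iff_eq_mul]
    ext y
    exact (rf_rel hik y).symm)

/-- The right action of `F` on `ℚ`. -/
noncomputable def act (g : TF) (y : ℚ) : ℚ := (th g)⁻¹ y

theorem act_one (y : ℚ) : act 1 y = y := by
  unfold act
  rw [map_one, inv_one]
  rfl

theorem act_mul (g h : TF) (y : ℚ) : act (g * h) y = act h (act g y) := by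
  unfold act
  rw [map_mul, mul_inv_rev]
  rfl

theorem act_gx (k : ℕ) (y : ℚ) : act (gx k) y = sf k y := by
  unfold act th
  rw [PresentedGroup.toGroup.of]
  rfl

theorem act_gx_inv (k : ℕ) (y : ℚ) : act (gx k)⁻¹ y = rf k y := by
  unfold act th
  rw [map_inv, inv_inv, PresentedGroup.toGroup.of]
  rfl

theorem act_strictMono (g : TF) : StrictMono (act g) := fun _ _ h =>
  ((th g)⁻¹).strictMono h

theorem act_inj (g : TF) : Function.Injective (act g) := (act_strictMono g).injective

end Pool.Agent.Lib.MP_566f59_al
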