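import Pool.Agent.Lib.MP_566f59_al.Path

/-!
# The crossing number of a path and its transport between fellow travellers
-/

set_option autoImplicit false

namespace Pool.Agent.Lib.MP_566f59_al

open Finset

open Classical in
/-- The lamp at a point: `0` for integers and `1` otherwise. -/
noncomputable def hh (y : ℚ) : ℤ := if isZ y then 0 else 1

theorem hh_congr {x y : ℚ} (h : isZ x ↔ isZ y) : hh x = hh y := by
  unfold hh
  by_cases h1 : isZ y
  · rw [if_pos h1, if_pos (h.mpr h1)]
  · rw [if_neg h1, if_neg (fun h2 => h1 (h.mp h2))]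

theorem hh_zero {y : ℚ} (h : isZ y) : hh y = 0 := by unfold hh; rw [if_pos h]

theorem hh_one {y : ℚ} (h : ¬ isZ y) : hh y = 1 := by unfold hh; rw [if_neg h]

/-- The crossing number: changes of the left lamp counted while the right lamp is on. -/
noncomputable def XX (gs : ℕ → TF) (a b : ℚ) (T : ℕ) : ℤ :=
  ∑ t ∈ range T, hh (act (gs t) b) * (hh (act (gs (t + 1)) a) - hh (act (gs t) a))

theorem XX_zero (gs : ℕ → TF) (a b : ℚ) : XX gs a b 0 = 0 := by
  unfold XX; rw [Finset.sum_range_zero]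

theorem XX_succ (gs : ℕ → TF) (a b : ℚ) (T : ℕ) : XX gs a b (T + 1) =
    XX gs a b T + hh (act (gs T) b) * (hh (act (gs (T + 1)) a) - hh (act (gs T) a)) := by
  unfold XX; rw [Finset.sum_range_succ]

/-- Products of at most `K` generators. -/
def NearK (n K : ℕ) (g : TF) : Prop := ∃ l : List TF, l.length ≤ K ∧ (∀ x ∈ l, Gen n x) ∧ l.prod = g

theorem list_near {n : ℕ} (l : List TF) (hl : ∀ x ∈ l, Gen n x) (y : ℚ) :
    |act l.prod y - y| ≤ l.length ∧
      ((n : ℚ) + 1 + l.length ≤ |y| → (isZ (act l.prod y) ↔ isZ y)) := by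
  induction l generalizing y with
  | nil =>
    rw [List.prod_nil, act_one]
    simp
  | cons x l ih =>
    have h1 := hl x List.mem_cons_self
    have h2 := ih (fun z hz => hl z (List.mem_cons_of_mem x hz)) (act x y)
    have h3 := move_le h1 y
    rw [List.prod_cons, act_mul, List.length_cons]
    push_cast
    refine ⟨?_, fun hy => ?_⟩
    · calc |act l.prod (act x y) - y| ≤ |act l.prod (act x y) - act x y| + |act x y - y| :=
            abs_sub_le _ _ _
        _ ≤ _ := by linarith [h2.1]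
    · have h4 : |y| ≤ |act x y| + |act x y - y| := by
        have := abs_sub_abs_le_abs_sub y (act x y)
        rw [abs_sub_comm y] at this
        linarith
      have hl0 : (0 : ℚ) ≤ l.length := Nat.cast_nonneg _
      rw [h2.2 (by linarith)]
      exact far_isZ h1 (by linarith)

theorem NearK.move {n K : ℕ} {g : TF} (h : NearK n K g) (y : ℚ) : |act g y - y| ≤ K := by
  obtain ⟨l, h1, h2, rfl⟩ := h
  have h3 : (l.length : ℚ) ≤ K := by exact_mod_cast h1
  exact (list_near l h2 y).1.trans h3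

theorem NearK.isZ {n K : ℕ} {g : TF} (h : NearK n K g) {y : ℚ} (hy : (n : ℚ) + 1 + K ≤ |y|) :
    isZ (act g y) ↔ isZ y := by
  obtain ⟨l, h1, h2, rfl⟩ := h
  have h3 : (l.length : ℚ) ≤ K := by exact_mod_cast h1
  exact (list_near l h2 y).2 (by linarith)

/-- Away from the middle nothing changes. -/
theorem quiet {n K : ℕ} {gu gv : ℕ → TF} (hu : IsPath n gu) (hv : IsPath n gv) {p p' q q' : ℕ}
    (hp : p' = p ∨ p' = p + 1) (hq : q' = q ∨ q' = q + 1) (hw : NearK n K ((gu p)⁻¹ * gv q))
    {y : ℚ} (hy : (n : ℚ) + 1 + K ≤ |act (gu p) y|) :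
    hh (act (gu p') y) = hh (act (gu p) y) ∧ hh (act (gv q) y) = hh (act (gu p) y) ∧
      hh (act (gv q') y) = hh (act (gu p) y) := by
  have hK0 : (0 : ℚ) ≤ K := Nat.cast_nonneg K
  have h1 : hh (act (gu p') y) = hh (act (gu p) y) := by
    rcases hp with rfl | rfl
    · rfl
    · rw [act_ratio (gu p) (gu (p + 1)) y]
      exact hh_congr (far_isZ (hu.step p) (by linarith))
  have h2 : hh (act (gv q) y) = hh (act (gu p) y) := by
    rw [act_ratio (gu p) (gv q) y]
    exact hh_congr (hw.isZ hy)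
  have h3 : |act (gv q) y - act (gu p) y| ≤ K := by
    rw [act_ratio (gu p) (gv q) y]
    exact hw.move _
  have h4 : (n : ℚ) + 1 ≤ |act (gv q) y| := by
    have h5 := abs_sub_abs_le_abs_sub (act (gu p) y) (act (gv q) y)
    rw [abs_sub_comm] at h5
    linarith
  refine ⟨h1, h2, ?_⟩
  rcases hq with rfl | rfl
  · exact h2
  · rw [← h2, act_ratio (gv q) (gv (q + 1)) y]
    exact hh_congr (far_isZ (hv.step q) h4)

theorem XX_move (gs : ℕ → TF) (a b : ℚ) {p p' : ℕ} (hp : p' = p ∨ p' = p + 1) : XX gs a b p' =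
    XX gs a b p + hh (act (gs p) b) * (hh (act (gs p') a) - hh (act (gs p) a)) := by
  rcases hp with rfl | rfl
  · ring
  · exact XX_succ gs a b p

/-- Transport of the crossing number. -/
theorem XX_fellow {n K : ℕ} {gu gv : ℕ → TF} (hu : IsPath n gu) (hv : IsPath n gv)
    {φ ψ : ℕ → ℕ} (hφ0 : φ 0 = 0) (hψ0 : ψ 0 = 0)
    (hφ : ∀ t, φ (t + 1) = φ t ∨ φ (t + 1) = φ t + 1)
    (hψ : ∀ t, ψ (t + 1) = ψ t ∨ ψ (t + 1) = ψ t + 1)
    (hw : ∀ t, NearK n K ((gu (φ t))⁻¹ * gv (ψ t))) {a b : ℚ}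
    (nb : ∀ t, (n : ℚ) + 1 + K ≤ |act (gu t) a| ∨ (n : ℚ) + 1 + K ≤ |act (gu t) b|) (t : ℕ) :
    XX gu a b (φ t) - XX gv a b (ψ t) =
      hh (act (gu (φ t)) b) * (hh (act (gu (φ t)) a) - hh (act (gv (ψ t)) a)) := by
  induction t with
  | zero =>
    rw [hφ0, hψ0, XX_zero, XX_zero, hu.act_zero, hu.act_zero, hv.act_zero]
    ring
  | succ t ih =>
    rw [XX_move gu a b (hφ t), XX_move gv a b (hψ t)]
    rcases nb (φ t) with h | h
    · obtain ⟨h1, h2, h3⟩ := quiet hu hv (hφ t) (hψ t) (hw t) h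
      rw [h2] at ih
      rw [h1, h2, h3]
      linarith
    · obtain ⟨h1, h2, h3⟩ := quiet hu hv (hφ t) (hψ t) (hw t) h
      rw [h1, h2]
      linear_combination ih

section lists

variable {A : Type*} (ι : A → TF)

/-- The path of a word. -/
noncomputable def gl (u : List A) (t : ℕ) : TF := ((u.take t).map ι).prod

theorem gl_zero (u : List A) : gl ι u 0 = 1 := by
  unfold gl; simp

theorem gl_end (u : List A) {t : ℕ} (ht : u.length ≤ t) : gl ι u t = (u.map ι).prod := by
  unfold gl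
  rw [List.take_of_length_le ht]

theorem gl_step {n : ℕ} (hn : ∀ a, Gen n (ι a)) (u : List A) (t : ℕ) :
    Gen n ((gl ι u t)⁻¹ * gl ι u (t + 1)) := by
  unfold gl
  rw [List.take_add_one, List.map_append, List.prod_append, inv_mul_cancel_left]
  cases h : u[t]? with
  | none => exact Or.inl (by simp)
  | some a =>
    have := hn a
    simpa using this

theorem gl_path {n : ℕ} (hn : ∀ a, Gen n (ι a)) (u : List A) : IsPath n (gl ι u) :=
  ⟨gl_zero ι u, gl_step ι hn u⟩

theorem XX_end (u : List A) (a b : ℚ) {t : ℕ} (ht : u.length ≤ t) :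
    XX (gl ι u) a b t = XX (gl ι u) a b u.length := by
  induction t, ht using Nat.le_induction with
  | base => rfl
  | succ t ht ih =>
    rw [XX_succ, ih, gl_end ι u ht, gl_end ι u (ht.trans (Nat.le_succ t))]
    ring

end lists

end Pool.Agent.Lib.MP_566f59_al
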