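import Pool.Agent.Lib.MP_566f59_al.Cross

/-!
# The chain of elements
-/

set_option autoImplicit false

namespace Pool.Agent.Lib.MP_566f59_al

open Finset

theorem act_pow (m : ℕ) (y : ℚ) : act (gx 0 ^ m) y = y - m := by
  induction m with
  | zero => rw [pow_zero, act_one]; simp
  | succ m ih => rw [pow_succ, act_mul, ih, act_gx, sf_zero]; push_cast; ring

theorem act_pow_inv (m : ℕ) (y : ℚ) : act ((gx 0)⁻¹ ^ m) y = y + m := by
  induction m with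
  | zero => rw [pow_zero, act_one]; simp
  | succ m ih => rw [pow_succ, act_mul, ih, act_gx_inv, rf_zero]; push_cast; ring

/-- Conjugates of `x_k` by powers of `x_0`. -/
theorem conj_pow {k : ℕ} (hk : k ≠ 0) (m : ℕ) :
    gx 0 ^ m * gx k * (gx 0)⁻¹ ^ m = gx (k + m) := by
  induction m with
  | zero => simp
  | succ m ih =>
    have h1 : gx 0 * gx (k + m) * (gx 0)⁻¹ = gx (k + m + 1) := gx_rel (by omega)
    rw [← ih] at h1
    rw [← add_assoc, ← h1, pow_succ' (gx 0) m, pow_succ (gx 0)⁻¹ m]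
    simp only [mul_assoc]

theorem swap_rel {k : ℕ} (hk : k ≠ 0) {N : ℕ} (hN : 2 ≤ N) :
    gx 0 ^ N * gx k * (gx 0)⁻¹ ^ N * gx k =
      gx k * (gx 0 ^ (N - 1) * gx k * (gx 0)⁻¹ ^ (N - 1)) := by
  rw [conj_pow hk, conj_pow hk]
  have h1 : gx k * gx (k + (N - 1)) * (gx k)⁻¹ = gx (k + (N - 1) + 1) := gx_rel (by omega)
  have h2 : k + (N - 1) + 1 = k + N := by omega
  rw [h2] at h1
  rw [← h1, inv_mul_cancel_right]

/-- Elements with the right lamp on. -/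
noncomputable def E01 (B κ k : ℕ) : TF := gx 0 ^ (B - κ) * gx κ * (gx 0)⁻¹ ^ k

/-- Elements with both lamps on. -/
noncomputable def E11 (A B κ j : ℕ) : TF :=
  gx 0 ^ (B - κ) * gx κ * (gx 0)⁻¹ ^ (A + B) * gx κ * gx 0 ^ j

/-- Elements with the left lamp on. -/
noncomputable def E10 (A B κ k : ℕ) : TF :=
  (gx 0)⁻¹ ^ (A + κ) * gx κ * gx 0 ^ (A + B - 1 - k)

variable {A B κ : ℕ}

theorem E01_succ (k : ℕ) : E01 B κ (k + 1) = E01 B κ k * (gx 0)⁻¹ := by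
  unfold E01; rw [pow_succ, ← mul_assoc]

theorem E11_zero : E11 A B κ 0 = E01 B κ (A + B) * gx κ := by
  unfold E11 E01; rw [pow_zero, mul_one]

theorem E11_succ (j : ℕ) : E11 A B κ (j + 1) = E11 A B κ j * gx 0 := by
  unfold E11; rw [pow_succ, ← mul_assoc]

theorem E11_alt (hκ : κ ≠ 0) (hκB : κ ≤ B) (hAB : 2 ≤ A + B) {j : ℕ} (hj : j ≤ A + B - 1) :
    E11 A B κ j = (gx 0)⁻¹ ^ (A + κ) * gx κ * gx 0 ^ (A + B - 1) * gx κ *
      (gx 0)⁻¹ ^ (A + B - 1 - j) := by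
  have hP : gx 0 ^ (B - κ) = (gx 0)⁻¹ ^ (A + κ) * gx 0 ^ (A + B) := by
    have : A + B = (A + κ) + (B - κ) := by omega
    rw [this, pow_add (gx 0), ← mul_assoc, inv_pow, inv_mul_cancel, one_mul]
  have hS : (gx 0)⁻¹ ^ (A + B - 1) * gx 0 ^ j = (gx 0)⁻¹ ^ (A + B - 1 - j) := by
    have : A + B - 1 = (A + B - 1 - j) + j := by omega
    nth_rewrite 1 [this]
    rw [pow_add, mul_assoc, inv_pow (gx 0) j, inv_mul_cancel, mul_one]
  unfold E11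
  calc gx 0 ^ (B - κ) * gx κ * (gx 0)⁻¹ ^ (A + B) * gx κ * gx 0 ^ j
      = (gx 0)⁻¹ ^ (A + κ) * (gx 0 ^ (A + B) * gx κ * (gx 0)⁻¹ ^ (A + B) * gx κ) * gx 0 ^ j := by
        rw [hP]; simp only [mul_assoc]
    _ = (gx 0)⁻¹ ^ (A + κ) * (gx κ * (gx 0 ^ (A + B - 1) * gx κ * (gx 0)⁻¹ ^ (A + B - 1))) *
          gx 0 ^ j := by rw [swap_rel hκ hAB]
    _ = (gx 0)⁻¹ ^ (A + κ) * gx κ * gx 0 ^ (A + B - 1) * gx κ *
          ((gx 0)⁻¹ ^ (A + B - 1) * gx 0 ^ j) := by simp only [mul_assoc]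
    _ = _ := by rw [hS]

theorem E10_zero (hκ : κ ≠ 0) (hκB : κ ≤ B) (hAB : 2 ≤ A + B) :
    E10 A B κ 0 = E11 A B κ (A + B - 1) * (gx κ)⁻¹ := by
  rw [E11_alt hκ hκB hAB le_rfl, Nat.sub_self, pow_zero, mul_one, mul_inv_cancel_right]
  unfold E10
  rw [Nat.sub_zero]

theorem E10_succ {k : ℕ} (hk : k + 1 ≤ A + B - 1) :
    E10 A B κ (k + 1) = E10 A B κ k * (gx 0)⁻¹ := by
  unfold E10
  have : A + B - 1 - k = (A + B - 1 - (k + 1)) + 1 := by omega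
  rw [this, pow_succ, ← mul_assoc, mul_inv_cancel_right]

theorem act_E01 (k : ℕ) (hκB : κ ≤ B) (y : ℚ) : act (E01 B κ k) y = sf κ (y - (B - κ)) + k := by
  unfold E01
  rw [act_mul, act_mul, act_pow, act_gx, act_pow_inv, Nat.cast_sub hκB]

theorem act_E11 (j : ℕ) (hκB : κ ≤ B) (y : ℚ) :
    act (E11 A B κ j) y = sf κ (sf κ (y - (B - κ)) + (A + B)) - j := by
  unfold E11
  rw [act_mul, act_mul, act_mul, act_mul, act_pow, act_gx, act_pow_inv, act_gx, act_pow,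
    Nat.cast_sub hκB]
  push_cast
  ring_nf

theorem act_E10 {k : ℕ} (hk : k ≤ A + B - 1) (h1 : 1 ≤ A + B) (y : ℚ) :
    act (E10 A B κ k) y = sf κ (y + (A + κ)) - (A + B - 1 - k) := by
  unfold E10
  rw [act_mul, act_mul, act_pow_inv, act_gx, act_pow, Nat.cast_sub hk, Nat.cast_sub h1]
  push_cast
  ring

theorem sf_self (hκ : κ ≠ 0) : sf κ (κ : ℚ) = κ - 1 / 2 := by
  rw [sf_mid hκ (by linarith) (by linarith)]; ring

theorem not_isZ_half (z : ℤ) : ¬ isZ ((z : ℚ) - 1 / 2) :=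
  not_isZ_between (k := z - 1) (by push_cast; linarith) (by push_cast; linarith)

theorem E01_b (hκ : κ ≠ 0) (hκB : κ ≤ B) (k : ℕ) : ¬ isZ (act (E01 B κ k) ((B : ℤ) : ℚ)) := by
  have h1 : (((B : ℤ) : ℚ) - ((B : ℚ) - κ)) = κ := by push_cast; ring
  have h2 : (κ : ℚ) - 1 / 2 + k = (((κ : ℤ) + k : ℤ) : ℚ) - 1 / 2 := by push_cast; ring
  rw [act_E01 k hκB, h1, sf_self hκ, h2]
  exact not_isZ_half _

theorem E01_i (hκ : κ ≠ 0) (hκB : κ ≤ B) (k : ℕ) {i : ℤ} (hi : i < B) :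
    act (E01 B κ k) (i : ℚ) = ((i - B + κ + k : ℤ) : ℚ) := by
  have h0 : (i : ℚ) + 1 ≤ B := by exact_mod_cast hi
  rw [act_E01 k hκB, sf_low hκ (by linarith)]
  push_cast
  ring

theorem E11_b (hκ : κ ≠ 0) (hκB : κ ≤ B) (hAB : 2 ≤ A + B) (j : ℕ) :
    ¬ isZ (act (E11 A B κ j) ((B : ℤ) : ℚ)) := by
  have h1 : (((B : ℤ) : ℚ) - ((B : ℚ) - κ)) = κ := by push_cast; ring
  have hAB' : (2 : ℚ) ≤ A + B := by exact_mod_cast hAB
  rw [act_E11 j hκB, h1, sf_self hκ, sf_high hκ (by linarith)]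
  have h3 : (κ : ℚ) - 1 / 2 + (A + B) - 1 - j = (((κ : ℤ) + A + B - 1 - j : ℤ) : ℚ) - 1 / 2 := by
    push_cast; ring
  rw [h3]
  exact not_isZ_half _

theorem E11_a (hκ : κ ≠ 0) (hκB : κ ≤ B) (hAB : 2 ≤ A + B) (j : ℕ) :
    ¬ isZ (act (E11 A B κ j) ((-(A : ℤ) : ℤ) : ℚ)) := by
  have hAB' : (2 : ℚ) ≤ A + B := by exact_mod_cast hAB
  have h1 : (((-(A : ℤ) : ℤ) : ℚ) - ((B : ℚ) - κ)) = κ - (A + B) := by push_cast; ring
  have h2 : sf κ ((κ : ℚ) - (A + B)) = κ - (A + B) := sf_low hκ (by linarith)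
  rw [act_E11 j hκB, h1, h2, sub_add_cancel, sf_self hκ]
  have h3 : (κ : ℚ) - 1 / 2 - j = (((κ : ℤ) - j : ℤ) : ℚ) - 1 / 2 := by
    push_cast; ring
  rw [h3]
  exact not_isZ_half _

theorem E11_i (hκ : κ ≠ 0) (hκB : κ ≤ B) (j : ℕ) {i : ℤ} (hi : i < B) (hi2 : -(A : ℤ) < i) :
    act (E11 A B κ j) (i : ℚ) = ((i + A + κ - 1 - j : ℤ) : ℚ) := by
  have h0 : (i : ℚ) + 1 ≤ B := by exact_mod_cast hi
  have h1 : -(A : ℚ) + 1 ≤ i := by exact_mod_cast hi2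
  have h2 : sf κ ((i : ℚ) - (B - κ)) = i - (B - κ) := sf_low hκ (by linarith)
  rw [act_E11 j hκB, h2, sf_high hκ (by linarith)]
  push_cast
  ring

theorem E10_a (hκ : κ ≠ 0) (hAB : 2 ≤ A + B) {k : ℕ} (hk : k ≤ A + B - 1) :
    ¬ isZ (act (E10 A B κ k) ((-(A : ℤ) : ℤ) : ℚ)) := by
  have h1 : ((-(A : ℤ) : ℤ) : ℚ) + ((A : ℚ) + κ) = κ := by push_cast; ring
  rw [act_E10 hk (by omega), h1, sf_self hκ]
  have h3 : (κ : ℚ) - 1 / 2 - (A + B - 1 - k) = (((κ : ℤ) - (A + B - 1 - k) : ℤ) : ℚ) - 1 / 2 := by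
    push_cast; ring
  rw [h3]
  exact not_isZ_half _

theorem E10_i (hκ : κ ≠ 0) (hAB : 2 ≤ A + B) {k : ℕ} (hk : k ≤ A + B - 1) {i : ℤ}
    (hi2 : -(A : ℤ) < i) : act (E10 A B κ k) (i : ℚ) = ((i + κ - B + k : ℤ) : ℚ) := by
  have h1 : -(A : ℚ) + 1 ≤ i := by exact_mod_cast hi2
  rw [act_E10 hk (by omega), sf_high hκ (by linarith)]
  push_cast
  ring

theorem E01_a (hκ : κ ≠ 0) (hκB : κ ≤ B) (hAB : 2 ≤ A + B) (k : ℕ) :
    isZ (act (E01 B κ k) ((-(A : ℤ) : ℤ) : ℚ)) := by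
  rw [E01_i hκ hκB k (by omega)]
  exact isZ_int _

theorem E10_b (hκ : κ ≠ 0) (hAB : 2 ≤ A + B) {k : ℕ} (hk : k ≤ A + B - 1) :
    isZ (act (E10 A B κ k) ((B : ℤ) : ℚ)) := by
  rw [E10_i hκ hAB hk (by omega)]
  exact isZ_int _

/-- The two sums in the bridging bound. -/
noncomputable def SS (A B : ℕ) (g : TF) : ℤ :=
  ∑ i ∈ Finset.Ioo (-(A : ℤ)) B, (2 - PP (i : ℚ)) +
    ∑ i ∈ Finset.Ioo (-(A : ℤ)) B, (2 - PP (act g (i : ℚ)))

theorem PP_int_le (z : ℤ) : PP (z : ℚ) ≤ 1 := by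
  rcases le_or_gt z 0 with h | h
  · rw [PP_low (isZ_int z) (by exact_mod_cast h)]; norm_num
  · rw [PP_high (isZ_int z) (by exact_mod_cast h)]

theorem PP_int_low {z : ℤ} (h : z ≤ 0) : PP (z : ℚ) = 0 := PP_low (isZ_int z) (by exact_mod_cast h)

theorem PP_int_high {z : ℤ} (h : 0 < z) : PP (z : ℚ) = 1 :=
  PP_high (isZ_int z) (by exact_mod_cast h)

theorem SS_start (hB : 0 < B) : 2 * (A : ℤ) + B - 1 ≤
    ∑ i ∈ Finset.Ioo (-(A : ℤ)) B, (2 - PP (i : ℚ)) := by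
  have h := low_sum' (a := -(A : ℤ)) (b := B) (d := 0) (by omega) (fun i => PP (i : ℚ))
    (fun i _ => PP_int_le i) (fun i _ hi => (PP_int_low hi).le)
  linarith

theorem SS_E01 (hκ : κ ≠ 0) (hκB : κ ≤ B) (k : ℕ) :
    3 * (A : ℤ) + 2 * B - 2 ≤ SS A B (E01 B κ k) := by
  have h1 := SS_start (A := A) (B := B) (by omega)
  have h2 := low_sum (a := -(A : ℤ)) (b := B) (fun i => PP (act (E01 B κ k) (i : ℚ)))
    (fun i hi => by
      rw [E01_i hκ hκB k (Finset.mem_Ioo.mp hi).2]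
      exact PP_int_le _)
  unfold SS
  linarith

theorem SS_E11 (hκ : κ ≠ 0) (hκB : κ ≤ B) {j : ℕ} (hj : j ≤ A + B - 1) :
    3 * (A : ℤ) + 2 * B - 2 + (j + 1 - κ) ≤ SS A B (E11 A B κ j) := by
  have h1 := SS_start (A := A) (B := B) (by omega)
  have h2 := low_sum' (a := -(A : ℤ)) (b := B) (d := j + 1 - κ - A) (by omega)
    (fun i => PP (act (E11 A B κ j) (i : ℚ)))
    (fun i hi => by
      have h3 := Finset.mem_Ioo.mp hi
      rw [E11_i hκ hκB j h3.2 h3.1]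
      exact PP_int_le _)
    (fun i hi hid => by
      have h3 := Finset.mem_Ioo.mp hi
      rw [E11_i hκ hκB j h3.2 h3.1]
      exact (PP_int_low (by linarith)).le)
  unfold SS
  linarith

theorem SS_E10 (hκ : κ ≠ 0) (hκB : κ ≤ B) (hAB : 2 ≤ A + B) {k : ℕ} (hk : k ≤ A + B - 1) :
    3 * (A : ℤ) + 2 * B - 2 + (A + B - κ - k) ≤ SS A B (E10 A B κ k) := by
  have h1 := SS_start (A := A) (B := B) (by omega)
  have h2 := low_sum' (a := -(A : ℤ)) (b := B) (d := B - κ - k) (by omega)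
    (fun i => PP (act (E10 A B κ k) (i : ℚ)))
    (fun i hi => by
      have h3 := Finset.mem_Ioo.mp hi
      rw [E10_i hκ hAB hk h3.1]
      exact PP_int_le _)
    (fun i hi hid => by
      have h3 := Finset.mem_Ioo.mp hi
      rw [E10_i hκ hAB hk h3.1]
      exact (PP_int_low (by linarith)).le)
  unfold SS
  linarith

end Pool.Agent.Lib.MP_566f59_al
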