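import Pool.Agent.Lib.MP_566f59_al.Act

/-!
# Levels of points

`PP y` is `0` for an integer `y ≤ 0`, `1` for an integer `y > 0` and `2` for all other points. A generator
`x_k^{±1}` changes the level of at most one point, by one.
-/

set_option autoImplicit false

namespace Pool.Agent.Lib.MP_566f59_al

open Finset

/-- Integrality. -/
def isZ (y : ℚ) : Prop := ∃ z : ℤ, (z : ℚ) = y

open Classical in
/-- The level of a point. -/
noncomputable def PP (y : ℚ) : ℤ := if isZ y then (if y ≤ 0 then 0 else 1) else 2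

/-- The generators of index at most `n` and their inverses, and the identity. -/
def Gen (n : ℕ) (g : TF) : Prop := g = 1 ∨ ∃ k ≤ n, g = gx k ∨ g = (gx k)⁻¹

theorem isZ_add_one (y : ℚ) : isZ (y + 1) ↔ isZ y := by
  constructor
  · rintro ⟨z, hz⟩
    exact ⟨z - 1, by push_cast; linarith⟩
  · rintro ⟨z, hz⟩
    exact ⟨z + 1, by push_cast; linarith⟩

theorem isZ_sub_one (y : ℚ) : isZ (y - 1) ↔ isZ y := by
  have h := isZ_add_one (y - 1)
  rw [sub_add_cancel] at h
  exact h.symm

theorem isZ_int (z : ℤ) : isZ (z : ℚ) := ⟨z, rfl⟩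

theorem isZ_nat (z : ℕ) : isZ (z : ℚ) := ⟨z, by push_cast; rfl⟩

theorem not_isZ_between {y : ℚ} {k : ℤ} (h1 : (k : ℚ) < y) (h2 : y < k + 1) : ¬ isZ y := by
  rintro ⟨z, rfl⟩
  have h3 : k < z := by exact_mod_cast h1
  have h4 : z < k + 1 := by exact_mod_cast h2
  omega

theorem not_isZ_nat {y : ℚ} {k : ℕ} (h1 : (k : ℚ) - 1 < y) (h2 : y < k) : ¬ isZ y := by
  apply not_isZ_between (k := (k : ℤ) - 1)
  · push_cast; exact h1
  · push_cast; linarith

theorem PP_low {y : ℚ} (h : isZ y) (h0 : y ≤ 0) : PP y = 0 := by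
  unfold PP
  rw [if_pos h, if_pos h0]

theorem PP_high {y : ℚ} (h : isZ y) (h0 : 0 < y) : PP y = 1 := by
  unfold PP
  rw [if_pos h, if_neg (not_le.mpr h0)]

theorem PP_non {y : ℚ} (h : ¬ isZ y) : PP y = 2 := by
  unfold PP
  rw [if_neg h]

theorem PP_eq_two {y : ℚ} : PP y = 2 ↔ ¬ isZ y := by
  constructor
  · intro h h1
    unfold PP at h
    rw [if_pos h1] at h
    split_ifs at h <;> exact absurd h (by norm_num)
  · exact PP_non

theorem PP_eq_one {y : ℚ} (h : PP y = 1) : isZ y ∧ 0 < y := by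
  unfold PP at h
  split_ifs at h with h1 h2
  · exact absurd h (by norm_num)
  · exact ⟨h1, not_le.mp h2⟩
  · exact absurd h (by norm_num)

theorem PP_range (y : ℚ) : PP y = 0 ∨ PP y = 1 ∨ PP y = 2 := by
  unfold PP
  split_ifs
  · exact Or.inl rfl
  · exact Or.inr (Or.inl rfl)
  · exact Or.inr (Or.inr rfl)

theorem PP_pos {y : ℚ} (h : 0 < y) : PP y = 1 ∨ PP y = 2 := by
  by_cases h1 : isZ y
  · exact Or.inl (PP_high h1 h)
  · exact Or.inr (PP_non h1)

theorem PP_congr {x y : ℚ} (h : isZ x ↔ isZ y) (h0 : isZ y → (x ≤ 0 ↔ y ≤ 0)) : PP x = PP y := by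
  by_cases h1 : isZ y
  · unfold PP
    rw [if_pos h1, if_pos (h.mpr h1)]
    by_cases h2 : y ≤ 0
    · rw [if_pos h2, if_pos ((h0 h1).mpr h2)]
    · rw [if_neg h2, if_neg (fun h3 => h2 ((h0 h1).mp h3))]
  · rw [PP_non h1, PP_non (fun h2 => h1 (h.mp h2))]

theorem sf_zero (y : ℚ) : sf 0 y = y - 1 := by unfold sf; rw [if_pos rfl]

theorem rf_zero (y : ℚ) : rf 0 y = y + 1 := by unfold rf; rw [if_pos rfl]

theorem sf_low {k : ℕ} (hk : k ≠ 0) {y : ℚ} (h : y ≤ k - 1) : sf k y = y := by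
  unfold sf; rw [if_neg hk, if_pos h]

theorem sf_mid {k : ℕ} (hk : k ≠ 0) {y : ℚ} (h : (k : ℚ) - 1 < y) (h2 : y ≤ k + 1) :
    sf k y = (y + (k - 1)) / 2 := by
  unfold sf; rw [if_neg hk, if_neg (not_le.mpr h), if_pos h2]

theorem sf_high {k : ℕ} (hk : k ≠ 0) {y : ℚ} (h : (k : ℚ) + 1 ≤ y) : sf k y = y - 1 := by
  unfold sf
  rw [if_neg hk, if_neg (by linarith)]
  by_cases h2 : y ≤ (k : ℚ) + 1
  · rw [if_pos h2]; linarith
  · rw [if_neg h2]

theorem rf_low {k : ℕ} (hk : k ≠ 0) {y : ℚ} (h : y ≤ k - 1) : rf k y = y := by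
  unfold rf; rw [if_neg hk, if_pos h]

theorem rf_mid {k : ℕ} (hk : k ≠ 0) {y : ℚ} (h : (k : ℚ) - 1 < y) (h2 : y ≤ k) :
    rf k y = 2 * y - (k - 1) := by
  unfold rf; rw [if_neg hk, if_neg (not_le.mpr h), if_pos h2]

theorem rf_high {k : ℕ} (hk : k ≠ 0) {y : ℚ} (h : (k : ℚ) ≤ y) : rf k y = y + 1 := by
  unfold rf
  rw [if_neg hk, if_neg (by linarith)]
  by_cases h2 : y ≤ (k : ℚ)
  · rw [if_pos h2]; linarith
  · rw [if_neg h2]

/-- Integers and the sign. -/
theorem int_le_iff {y : ℚ} (h : isZ y) (h1 : y ≠ 1) : y - 1 ≤ 0 ↔ y ≤ 0 := by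
  obtain ⟨z, rfl⟩ := h
  constructor
  · intro h2
    have h3 : z ≠ 1 := fun e => h1 (by rw [e]; norm_num)
    have h4 : z ≤ 1 := by
      have : (z : ℚ) ≤ 1 := by linarith
      exact_mod_cast this
    have h5 : z ≤ 0 := by omega
    exact_mod_cast h5
  · intro h2; linarith

theorem int_le_iff' {y : ℚ} (h : isZ y) (h1 : y ≠ 0) : y + 1 ≤ 0 ↔ y ≤ 0 := by
  have h2 := int_le_iff ((isZ_add_one y).mpr h) (fun e => h1 (by linarith))
  rw [add_sub_cancel_right] at h2
  exact h2.symm

theorem one_step {n : ℕ} {g : TF} (hg : Gen n g) : ∃ e : ℚ, e ≤ n + 1 ∧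
    ∀ y, (y ≠ e → PP (act g y) = PP y) ∧ |PP (act g y) - PP y| ≤ 1 := by
  have hn0 : (0 : ℚ) ≤ n := Nat.cast_nonneg n
  -- it is enough to have the first part and the second for `y = e`
  suffices H : ∃ e : ℚ, e ≤ n + 1 ∧ (∀ y, y ≠ e → PP (act g y) = PP y) ∧
      |PP (act g e) - PP e| ≤ 1 by
    obtain ⟨e, h1, h2, h3⟩ := H
    refine ⟨e, h1, fun y => ⟨h2 y, ?_⟩⟩
    by_cases h : y = e
    · rw [h]; exact h3
    · rw [h2 y h, sub_self, abs_zero]; norm_num
  rcases hg with rfl | ⟨k, hk, rfl | rfl⟩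
  · exact ⟨0, by linarith, fun y _ => by rw [act_one], by rw [act_one, sub_self, abs_zero]; norm_num⟩
  · by_cases hk0 : k = 0
    · subst hk0
      refine ⟨1, by linarith, fun y hy => ?_, ?_⟩
      · rw [act_gx, sf_zero]
        exact PP_congr (isZ_sub_one y) (fun h => int_le_iff h hy)
      · rw [act_gx, sf_zero, PP_low ⟨0, by norm_num⟩ (by norm_num),
          PP_high ⟨1, by norm_num⟩ (by norm_num)]
        norm_num
    · have hk1 : (1 : ℚ) ≤ k := by exact_mod_cast Nat.one_le_iff_ne_zero.mpr hk0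
      have hkn : (k : ℚ) ≤ n := by exact_mod_cast hk
      refine ⟨k, by linarith, fun y hy => ?_, ?_⟩
      · rw [act_gx]
        rcases le_or_gt y ((k : ℚ) - 1) with h1 | h1
        · rw [sf_low hk0 h1]
        rcases lt_or_ge y ((k : ℚ) + 1) with h2 | h2
        · rw [sf_mid hk0 h1 h2.le, PP_non (not_isZ_nat (k := k) (by linarith) (by linarith))]
          have h3 : ¬ isZ y := by
            rcases lt_or_gt_of_ne hy with h4 | h4
            · exact not_isZ_nat h1 h4
            · exact not_isZ_between (k := (k : ℤ)) (by push_cast; exact h4) (by push_cast; exact h2)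
          rw [PP_non h3]
        · rw [sf_high hk0 h2]
          refine PP_congr (isZ_sub_one y) (fun _ => ⟨fun h => by linarith, fun h => by linarith⟩)
      · rw [act_gx, sf_mid hk0 (by linarith) (by linarith),
          PP_non (not_isZ_nat (k := k) (by linarith) (by linarith)),
          PP_high (isZ_nat k) (by linarith)]
        norm_num
  · by_cases hk0 : k = 0
    · subst hk0
      refine ⟨0, by linarith, fun y hy => ?_, ?_⟩
      · rw [act_gx_inv, rf_zero]
        exact PP_congr (isZ_add_one y) (fun h => int_le_iff' h hy)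
      · rw [act_gx_inv, rf_zero, PP_low (y := 0) ⟨0, by norm_num⟩ (by norm_num),
          PP_high ⟨1, by norm_num⟩ (by norm_num)]
        norm_num
    · have hk1 : (1 : ℚ) ≤ k := by exact_mod_cast Nat.one_le_iff_ne_zero.mpr hk0
      have hkn : (k : ℚ) ≤ n := by exact_mod_cast hk
      refine ⟨(k : ℚ) - 1 / 2, by linarith, fun y hy => ?_, ?_⟩
      · rw [act_gx_inv]
        rcases le_or_gt y ((k : ℚ) - 1) with h1 | h1
        · rw [rf_low hk0 h1]
        rcases lt_or_ge y (k : ℚ) with h2 | h2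
        · rw [rf_mid hk0 h1 h2.le, PP_non (not_isZ_nat h1 h2)]
          rw [PP_non]
          rcases lt_or_gt_of_ne hy with h4 | h4
          · exact not_isZ_nat (k := k) (by linarith) (by linarith)
          · exact not_isZ_between (k := (k : ℤ)) (by push_cast; linarith) (by push_cast; linarith)
        · rw [rf_high hk0 h2]
          refine PP_congr (isZ_add_one y) (fun _ => ⟨fun h => by linarith, fun h => by linarith⟩)
      · have e1 : 2 * ((k : ℚ) - 1 / 2) - (k - 1) = k := by ring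
        rw [act_gx_inv, rf_mid hk0 (by linarith) (by linarith), e1, PP_high (isZ_nat k) (by linarith),
          PP_non (not_isZ_nat (k := k) (by linarith) (by linarith))]
        norm_num

theorem move_le {n : ℕ} {g : TF} (hg : Gen n g) (y : ℚ) : |act g y - y| ≤ 1 := by
  rw [abs_le]
  rcases hg with rfl | ⟨k, hk, rfl | rfl⟩
  · rw [act_one]; constructor <;> linarith
  · rw [act_gx]; unfold sf
    split_ifs <;> constructor <;> linarith
  · rw [act_gx_inv]; unfold rf
    split_ifs <;> constructor <;> linarith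

theorem far_isZ {n : ℕ} {g : TF} (hg : Gen n g) {y : ℚ} (hy : (n : ℚ) + 1 ≤ |y|) :
    isZ (act g y) ↔ isZ y := by
  have hn0 : (0 : ℚ) ≤ n := Nat.cast_nonneg n
  rcases hg with rfl | ⟨k, hk, rfl | rfl⟩
  · rw [act_one]
  · by_cases hk0 : k = 0
    · subst hk0
      rw [act_gx, sf_zero, isZ_sub_one]
    · have hk1 : (1 : ℚ) ≤ k := by exact_mod_cast Nat.one_le_iff_ne_zero.mpr hk0
      have hkn : (k : ℚ) ≤ n := by exact_mod_cast hk
      rw [act_gx]
      rcases le_abs.mp hy with h | h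
      · rw [sf_high hk0 (by linarith), isZ_sub_one]
      · rw [sf_low hk0 (by linarith)]
  · by_cases hk0 : k = 0
    · subst hk0
      rw [act_gx_inv, rf_zero, isZ_add_one]
    · have hk1 : (1 : ℚ) ≤ k := by exact_mod_cast Nat.one_le_iff_ne_zero.mpr hk0
      have hkn : (k : ℚ) ≤ n := by exact_mod_cast hk
      rw [act_gx_inv]
      rcases le_abs.mp hy with h | h
      · rw [rf_high hk0 (by linarith), isZ_add_one]
      · rw [rf_low hk0 (by linarith)]

end Pool.Agent.Lib.MP_566f59_al
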