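import Pool.Agent.Lib.MP_566f59_al.Elems

/-!
# The main argument
-/

set_option autoImplicit false

namespace Pool.Agent.Lib.MP_566f59_al

open Finset

/-- The asynchronous fellow traveller property of two words, with constant `M`. -/
def Fellow {A : Type} (ι : A → TF) (M : ℝ) (u v : List A) : Prop :=
  ∃ φ ψ : ℕ → ℕ, φ 0 = 0 ∧ ψ 0 = 0 ∧ (∀ t, φ (t + 1) = φ t ∨ φ (t + 1) = φ t + 1) ∧
    (∀ t, ψ (t + 1) = ψ t ∨ ψ (t + 1) = ψ t + 1) ∧ (∃ T, u.length ≤ φ T ∧ v.length ≤ ψ T) ∧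
    ∀ t, ∃ w : List A, (w.length : ℝ) ≤ M ∧ (w.map ι).prod =
      ((u.take (φ t)).map ι).prod⁻¹ * ((v.take (ψ t)).map ι).prod

section lines

variable {A : Type} {ι : A → TF} {n K : ℕ}

/-- The crossing number of a word. -/
noncomputable def Xw (ι : A → TF) (a b : ℕ) (u : List A) : ℤ :=
  XX (gl ι u) ((-(a : ℤ) : ℤ) : ℚ) ((b : ℤ) : ℚ) u.length

/-- No bridging. -/
def NB (n K : ℕ) (ι : A → TF) (a b : ℕ) (u : List A) : Prop :=
  ∀ t, (n : ℚ) + 1 + K ≤ |act (gl ι u t) ((-(a : ℤ) : ℤ) : ℚ)| ∨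
    (n : ℚ) + 1 + K ≤ |act (gl ι u t) ((b : ℤ) : ℚ)|

theorem nb_of_short (hn : ∀ x, Gen n (ι x)) {a b : ℕ} {u : List A} {E : TF}
    (hE : (u.map ι).prod = E) (h : (u.length : ℤ) + 4 * (2 * (n + 1 + K) + 1) < SS a b E) :
    NB n K ι a b u := by
  intro t
  by_contra hne
  push Not at hne
  obtain ⟨h1, h2⟩ := hne
  have key : ∃ s ≤ u.length, gl ι u s = gl ι u t := by
    rcases le_or_gt t u.length with h3 | h3
    · exact ⟨t, h3, rfl⟩
    · exact ⟨u.length, le_rfl, by rw [gl_end ι u le_rfl, gl_end ι u h3.le]⟩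
  obtain ⟨s, hs, hst⟩ := key
  rw [← hst] at h1 h2
  have h3 := (gl_path ι hn u).bridge hs (R := n + 1 + K) (a := -(a : ℤ)) (b := b)
    (by push_cast at h1 ⊢; exact h1.le) (by push_cast at h2 ⊢; exact h2.le)
  rw [gl_end ι u le_rfl, hE] at h3
  unfold SS at h
  push_cast at h3
  linarith

theorem near_of_word (hn : ∀ x, Gen n (ι x)) {w : List A} (hw : w.length ≤ K) {g : TF}
    (hg : (w.map ι).prod = g) : NearK n K g := by
  refine ⟨w.map ι, by rw [List.length_map]; exact hw, fun x hx => ?_, hg⟩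
  rw [List.mem_map] at hx
  obtain ⟨a, _, rfl⟩ := hx
  exact hn a

theorem transport (hn : ∀ x, Gen n (ι x)) {a b : ℕ} {u v : List A} {M : ℝ}
    (hf : Fellow ι M u v) (hM : M ≤ K) (hnb : NB n K ι a b u) : Xw ι a b u - Xw ι a b v =
      hh (act (u.map ι).prod ((b : ℤ) : ℚ)) * (hh (act (u.map ι).prod ((-(a : ℤ) : ℤ) : ℚ)) -
        hh (act (v.map ι).prod ((-(a : ℤ) : ℤ) : ℚ))) := by
  obtain ⟨φ, ψ, h1, h2, h3, h4, ⟨T, h5, h6⟩, h7⟩ := hf
  have h8 := XX_fellow (gl_path ι hn u) (gl_path ι hn v) h1 h2 h3 h4 (K := K)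
    (fun t => by
      obtain ⟨w, hw1, hw2⟩ := h7 t
      exact near_of_word hn (by exact_mod_cast hw1.trans hM) hw2) hnb T
  rw [XX_end ι u _ _ h5, XX_end ι v _ _ h6, gl_end ι u h5, gl_end ι v h6] at h8
  exact h8

theorem Xw_end1 (hn : ∀ x, Gen n (ι x)) {a b κ : ℕ} (hκ : κ ≠ 0) (hκB : κ ≤ b) {u : List A}
    (hE : (u.map ι).prod = E01 b κ 0) (h : (u.length : ℤ) < 2 * a) : Xw ι a b u = 0 := by
  by_contra hne
  have h1 : ∃ t ≤ u.length, PP (act (gl ι u t) ((-(a : ℤ) : ℤ) : ℚ)) = 2 := by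
    by_contra hno
    push Not at hno
    apply hne
    unfold Xw XX
    refine Finset.sum_eq_zero fun t ht => ?_
    rw [Finset.mem_range] at ht
    have e1 : ∀ s ≤ u.length, hh (act (gl ι u s) ((-(a : ℤ) : ℤ) : ℚ)) = 0 := by
      intro s hs
      apply hh_zero
      by_contra h2
      exact hno s hs (PP_non h2)
    rw [e1 t ht.le, e1 (t + 1) ht]
    ring
  obtain ⟨t, ht, h2⟩ := h1
  have h3 := (gl_path ι hn u).end1 ht (A := a) (fun i hi => by
    have hi' := Finset.mem_Ioc.mp hi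
    rw [gl_end ι u le_rfl, hE, E01_i hκ hκB 0 (by omega)]
    exact PP_int_low (by push_cast; omega)) h2
  omega

theorem Xw_end2 (hn : ∀ x, Gen n (ι x)) {a b κ : ℕ} (hκ : κ ≠ 0) (hκB : κ ≤ b)
    (hab : 2 ≤ a + b) {u : List A} (hE : (u.map ι).prod = E10 a b κ (a + b - 1))
    (h : (u.length : ℤ) + 6 * (2 * n + 3) < 3 * a) : Xw ι a b u = 0 := by
  by_contra hne
  have h1 : ∃ t < u.length, PP (act (gl ι u t) ((b : ℤ) : ℚ)) = 2 ∧
      ¬ (PP (act (gl ι u t) ((-(a : ℤ) : ℤ) : ℚ)) = 2 ↔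
        PP (act (gl ι u (t + 1)) ((-(a : ℤ) : ℤ) : ℚ)) = 2) := by
    by_contra hno
    push Not at hno
    apply hne
    unfold Xw XX
    refine Finset.sum_eq_zero fun t ht => ?_
    rw [Finset.mem_range] at ht
    by_cases h2 : isZ (act (gl ι u t) ((b : ℤ) : ℚ))
    · rw [hh_zero h2, zero_mul]
    · have h3 := hno t ht (PP_non h2)
      rw [PP_eq_two, PP_eq_two] at h3
      rw [hh_congr (not_iff_not.mp h3), sub_self, mul_zero]
  obtain ⟨t, ht, h2, h3⟩ := h1
  have h4 := (gl_path ι hn u).end2 ht (A := a) (B := b) (by omega) (fun i hi => by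
      have hi' := Finset.mem_Ioc.mp hi
      rw [gl_end ι u le_rfl, hE, E10_i hκ hab le_rfl hi'.1]
      exact PP_int_high (by omega))
    (by
      rw [gl_end ι u le_rfl, hE]
      intro h5
      exact (PP_eq_two.mp h5) (E10_b hκ hab le_rfl)) h2 h3
  omega

end lines

section letters

/-- Homomorphisms to the integers. -/
theorem exists_hom (p : ℕ → Multiplicative ℤ) (hp : ∀ k, k ≠ 0 → p (k + 1) = p k) :
    ∃ f : TF →* Multiplicative ℤ, ∀ k, f (gx k) = p k := by
  refine ⟨PresentedGroup.toGroup (f := p) ?_, fun k => PresentedGroup.toGroup.of _⟩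
  rintro r ⟨i, k, hik, rfl⟩
  rw [map_mul, map_mul, map_mul, map_inv, map_inv, FreeGroup.lift_apply_of,
    FreeGroup.lift_apply_of, FreeGroup.lift_apply_of, hp k (by omega), mul_inv_eq_one,
    mul_inv_eq_iff_eq_mul, mul_comm]

variable {A : Type} {ι : A → TF}

theorem hom_trivial (f : TF →* Multiplicative ℤ) (h : ∀ a, f (ι a) = 1) (u : List A) :
    f (u.map ι).prod = 1 := by
  induction u with
  | nil => simp
  | cons a u ih => rw [List.map_cons, List.prod_cons, map_mul, h a, ih, one_mul]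

theorem has_zero (hι : ∀ a, ∃ i, ι a = gx i ∨ ι a = (gx i)⁻¹)
    (hgen : ∀ g, ∃ u : List A, (u.map ι).prod = g) : ∃ a, ι a = gx 0 ∨ ι a = (gx 0)⁻¹ := by
  by_contra hne
  push Not at hne
  obtain ⟨f, hf⟩ := exists_hom (fun k => if k = 0 then Multiplicative.ofAdd 1 else 1)
    (fun k hk => by simp [hk])
  obtain ⟨u, hu⟩ := hgen (gx 0)
  have h1 : f (u.map ι).prod = 1 := by
    apply hom_trivial
    intro a
    obtain ⟨i, hi⟩ := hι a
    have hi0 : i ≠ 0 := by
      rintro rfl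
      rcases hi with h | h
      · exact (hne a).1 h
      · exact (hne a).2 h
    rcases hi with h | h
    · rw [h, hf, if_neg hi0]
    · rw [h, map_inv, hf, if_neg hi0, inv_one]
  rw [hu, hf, if_pos rfl] at h1
  exact absurd h1 (by decide)

theorem has_pos (hι : ∀ a, ∃ i, ι a = gx i ∨ ι a = (gx i)⁻¹)
    (hgen : ∀ g, ∃ u : List A, (u.map ι).prod = g) :
    ∃ κ, κ ≠ 0 ∧ ∃ a, ι a = gx κ ∨ ι a = (gx κ)⁻¹ := by
  by_contra hne
  push Not at hne
  obtain ⟨f, hf⟩ := exists_hom (fun k => if k = 0 then 1 else Multiplicative.ofAdd 1)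
    (fun k hk => by simp [hk])
  obtain ⟨u, hu⟩ := hgen (gx 1)
  have h1 : f (u.map ι).prod = 1 := by
    apply hom_trivial
    intro a
    obtain ⟨i, hi⟩ := hι a
    have hi0 : i = 0 := by
      by_contra hi0
      rcases hi with h | h
      · exact (hne i hi0 a).1 h
      · exact (hne i hi0 a).2 h
    rcases hi with h | h
    · rw [h, hf, if_pos hi0]
    · rw [h, map_inv, hf, if_pos hi0, inv_one]
  rw [hu, hf, if_neg one_ne_zero] at h1
  exact absurd h1 (by decide)

theorem both (hinv : ∀ a, ∃ b, ι b = (ι a)⁻¹) {g : TF} (h : ∃ a, ι a = g ∨ ι a = g⁻¹) :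
    ∃ c c', ι c = g ∧ ι c' = g⁻¹ := by
  obtain ⟨a, ha⟩ := h
  obtain ⟨b, hb⟩ := hinv a
  rcases ha with ha | ha
  · exact ⟨a, b, ha, by rw [hb, ha]⟩
  · exact ⟨b, a, by rw [hb, ha, inv_inv], ha⟩

end letters

/-- The slope. -/
theorem exists_slope (lam : ℝ) (hlam : lam < 2) : ∃ m : ℕ, 3 ≤ m ∧
    3 ≤ (2 - lam) * (2 * m + 2) := by
  obtain ⟨m, hm⟩ := exists_nat_gt (3 / (2 - lam))
  refine ⟨m + 3, by omega, ?_⟩
  have h2 : 0 < 2 - lam := by linarith
  rw [div_lt_iff₀ h2] at hm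
  push_cast
  nlinarith

theorem main_aux {lam : ℝ} (hlam : lam < 2) (hlam1 : 1 ≤ lam) {m : ℕ} (hm3 : 3 ≤ m)
    (hmlam : 3 ≤ (2 - lam) * (2 * m + 2)) {A : Type} [Finite A] (ι : A → TF)
    (hι : ∀ a, ∃ i, ι a = gx i ∨ ι a = (gx i)⁻¹)
    (hinv : ∀ a, ∃ b, ι b = (ι a)⁻¹) (L : Set (List A)) (hL : ∀ g, ∃ u ∈ L, (u.map ι).prod = g)
    {C D : ℝ} (hC0 : 0 ≤ C) (hD0 : 0 ≤ D)
    (hF : ∀ u ∈ L, ∀ v ∈ L, ((u.map ι).prod⁻¹ * (v.map ι).prod = 1 ∨
      ∃ a, (u.map ι).prod⁻¹ * (v.map ι).prod = ι a) →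
        Fellow ι ((u.length + v.length) / (128 * (m + 1)) + D) u v) :
    ∃ w : List A, ∀ u ∈ L, (u.map ι).prod = (w.map ι).prod → lam * w.length + C < u.length := by
  classical
  by_contra hcon
  push Not at hcon
  -- the bound for the indices
  choose idx hidx using hι
  obtain ⟨n, hn⟩ : ∃ n, ∀ a, Gen n (ι a) := by
    obtain ⟨n, hn⟩ := (Set.finite_range idx).bddAbove
    exact ⟨n, fun a => Or.inr ⟨idx a, hn ⟨a, rfl⟩, hidx a⟩⟩
  have hgen : ∀ g, ∃ u : List A, (u.map ι).prod = g := fun g => by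
    obtain ⟨u, _, hu⟩ := hL g
    exact ⟨u, hu⟩
  have hι' : ∀ a, ∃ i, ι a = gx i ∨ ι a = (gx i)⁻¹ := fun a => ⟨idx a, hidx a⟩
  obtain ⟨c0, c0', hc0, hc0'⟩ := both hinv (has_zero hι' hgen)
  obtain ⟨κ, hκ, hκa⟩ := has_pos hι' hgen
  obtain ⟨ck, ck', hck, hck'⟩ := both hinv hκa
  -- parameters
  obtain ⟨b, hb⟩ := exists_nat_gt (2 * (C + 8 * (2 * κ + 2 + C + D + 1) + 8 * n + 12 + 3 * κ + 6 +
    6 * (2 * n + 3)))
  have hn0 : (0 : ℝ) ≤ n := Nat.cast_nonneg n
  have hκ1 : (1 : ℝ) ≤ κ := by exact_mod_cast Nat.one_le_iff_ne_zero.mpr hκ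
  have hκb : κ ≤ b := by
    have : (κ : ℝ) ≤ b := by linarith
    exact_mod_cast this
  obtain ⟨a, ha⟩ : ∃ a : ℕ, a = m * b := ⟨_, rfl⟩
  have haR : (a : ℝ) = m * b := by rw [ha]; push_cast; ring
  have hm3R : (3 : ℝ) ≤ m := by exact_mod_cast hm3
  have hb0 : (0 : ℝ) ≤ b := Nat.cast_nonneg b
  have ha3 : 3 * (b : ℝ) ≤ a := by rw [haR]; nlinarith
  have hab : 2 ≤ a + b := by
    have : (2 : ℝ) ≤ a + b := by linarith
    exact_mod_cast this
  -- the bound for the lengths and the fellow traveller constant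
  obtain ⟨Λ, hΛ⟩ : ∃ Λ : ℝ, Λ = 4 * a + 4 * b + 2 * κ + 2 + C := ⟨_, rfl⟩
  have hΛ0 : 0 ≤ Λ := by rw [hΛ]; linarith
  obtain ⟨K, hK⟩ : ∃ K : ℕ, K = ⌈(Λ + Λ) / (128 * (m + 1)) + D⌉₊ := ⟨_, rfl⟩
  have hm1 : (0 : ℝ) < 128 * (m + 1) := by linarith
  have hK1 : (Λ + Λ) / (128 * (m + 1)) + D ≤ K := by rw [hK]; exact Nat.le_ceil _
  have hK2 : (K : ℝ) < (Λ + Λ) / (128 * (m + 1)) + D + 1 := by
    rw [hK]
    exact Nat.ceil_lt_add_one (add_nonneg (div_nonneg (by linarith) hm1.le) hD0)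
  have hK3 : (Λ + Λ) / (128 * (m + 1)) ≤ b / 16 + (2 * κ + 2 + C) := by
    rw [div_le_iff₀ hm1, hΛ, haR]
    nlinarith [mul_nonneg (by linarith : (0 : ℝ) ≤ m) (by linarith : (0 : ℝ) ≤ 2 * κ + 2 + C)]
  have hK0 : (0 : ℝ) ≤ K := Nat.cast_nonneg K
  have hc : 4 * (2 * ((n : ℝ) + 1 + K) + 1) ≤ b / 2 + 8 * (2 * κ + 2 + C + D + 1) + 8 * n + 12 := by
    linarith
  -- the main inequality
  have hmain : lam * (2 * a + 2 * b) ≤ 4 * a + b := by
    rw [haR]
    nlinarith
  -- good lines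
  have G01 : ∀ k ≤ a + b, ∃ u ∈ L, (u.map ι).prod = E01 b κ k ∧ NB n K ι a b u ∧
      (u.length : ℝ) ≤ Λ ∧ (u.length : ℝ) ≤ lam * ((b : ℝ) - κ + 1 + k) + C := by
    intro k hk
    obtain ⟨u, hu, he, hl⟩ := hcon (List.replicate (b - κ) c0 ++ [ck] ++ List.replicate k c0')
    have hE : (u.map ι).prod = E01 b κ k := by
      rw [he]
      unfold E01
      simp only [List.map_append, List.map_replicate, List.prod_append, List.prod_replicate,
        List.map_cons, List.map_nil, List.prod_cons, List.prod_nil, mul_one, hc0, hc0', hck]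
    have hlen : ((List.replicate (b - κ) c0 ++ [ck] ++ List.replicate k c0').length : ℝ) =
        (b : ℝ) - κ + 1 + k := by
      simp only [List.length_append, List.length_replicate, List.length_cons, List.length_nil]
      push_cast [Nat.cast_sub hκb]
      ring
    rw [hlen] at hl
    have hk' : (k : ℝ) ≤ a + b := by exact_mod_cast hk
    have h2 : lam * ((b : ℝ) - κ + 1 + k) ≤ 2 * (a + 2 * b) := by nlinarith
    refine ⟨u, hu, hE, ?_, by linarith, hl⟩
    apply nb_of_short hn hE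
    have h1 : (u.length : ℝ) + 4 * (2 * (n + 1 + K) + 1) < 3 * a + 2 * b - 2 := by
      linarith
    have h3 : (u.length : ℤ) + 4 * (2 * (n + 1 + K) + 1) < 3 * a + 2 * b - 2 := by
      exact_mod_cast h1
    exact h3.trans_le (SS_E01 hκ hκb k)
  have G11 : ∀ j ≤ a + b - 1, ∃ u ∈ L, (u.map ι).prod = E11 a b κ j ∧ NB n K ι a b u ∧
      (u.length : ℝ) ≤ Λ := by
    intro j hj
    have hj' : (j : ℝ) ≤ a + b - 1 := by
      have : (j : ℝ) + 1 ≤ a + b := by exact_mod_cast (by omega : j + 1 ≤ a + b)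
      linarith
    have fin : ∀ u : List A, (u.map ι).prod = E11 a b κ j →
        (u.length : ℝ) + 4 * (2 * (n + 1 + K) + 1) < 3 * a + 2 * b - 2 + (j + 1 - κ) →
        NB n K ι a b u := by
      intro u hE h1
      apply nb_of_short hn hE
      have h3 : (u.length : ℤ) + 4 * (2 * (n + 1 + K) + 1) <
          3 * a + 2 * b - 2 + (j + 1 - κ) := by exact_mod_cast h1
      exact h3.trans_le (SS_E11 hκ hκb hj)
    rcases le_or_gt j a with hja | hja
    · obtain ⟨u, hu, he, hl⟩ := hcon (List.replicate (b - κ) c0 ++ [ck] ++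
        List.replicate (a + b) c0' ++ [ck] ++ List.replicate j c0)
      have hE : (u.map ι).prod = E11 a b κ j := by
        rw [he]
        unfold E11
        simp only [List.map_append, List.map_replicate, List.prod_append, List.prod_replicate,
          List.map_cons, List.map_nil, List.prod_cons, List.prod_nil, mul_one, hc0, hc0', hck]
      have hlen : ((List.replicate (b - κ) c0 ++ [ck] ++
        List.replicate (a + b) c0' ++ [ck] ++ List.replicate j c0).length : ℝ) =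
          (a : ℝ) + 2 * b - κ + 2 + j := by
        simp only [List.length_append, List.length_replicate, List.length_cons, List.length_nil]
        push_cast [Nat.cast_sub hκb]
        ring
      rw [hlen] at hl
      have hja' : (j : ℝ) ≤ a := by exact_mod_cast hja
      have h2 : lam * ((a : ℝ) + 2 * b - κ + 2 + j) ≤ 4 * a + b + 2 - (a - j) := by nlinarith
      exact ⟨u, hu, hE, fin u hE (by linarith), by linarith⟩
    · obtain ⟨u, hu, he, hl⟩ := hcon (List.replicate (a + κ) c0' ++ [ck] ++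
        List.replicate (a + b - 1) c0 ++ [ck] ++ List.replicate (a + b - 1 - j) c0')
      have hE : (u.map ι).prod = E11 a b κ j := by
        rw [he, E11_alt hκ hκb hab hj]
        simp only [List.map_append, List.map_replicate, List.prod_append, List.prod_replicate,
          List.map_cons, List.map_nil, List.prod_cons, List.prod_nil, mul_one, hc0, hc0', hck]
      have hlen : ((List.replicate (a + κ) c0' ++ [ck] ++
        List.replicate (a + b - 1) c0 ++ [ck] ++ List.replicate (a + b - 1 - j) c0').length : ℝ) =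
          3 * (a : ℝ) + 2 * b + κ - j := by
        simp only [List.length_append, List.length_replicate, List.length_cons, List.length_nil]
        push_cast [Nat.cast_sub hj, Nat.cast_sub (show 1 ≤ a + b by omega)]
        ring
      rw [hlen] at hl
      have hja' : (a : ℝ) ≤ j := by exact_mod_cast hja.le
      have h2 : lam * (3 * (a : ℝ) + 2 * b + κ - j) ≤ 4 * a + b + 2 * κ - (j - a) := by nlinarith
      exact ⟨u, hu, hE, fin u hE (by linarith), by linarith⟩
  have G10 : ∀ k ≤ a + b - 1, ∃ u ∈ L, (u.map ι).prod = E10 a b κ k ∧ NB n K ι a b u ∧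
      (u.length : ℝ) ≤ Λ ∧ (u.length : ℝ) ≤ lam * (2 * (a : ℝ) + b + κ - k) + C := by
    intro k hk
    obtain ⟨u, hu, he, hl⟩ := hcon (List.replicate (a + κ) c0' ++ [ck] ++
      List.replicate (a + b - 1 - k) c0)
    have hE : (u.map ι).prod = E10 a b κ k := by
      rw [he]
      unfold E10
      simp only [List.map_append, List.map_replicate, List.prod_append, List.prod_replicate,
        List.map_cons, List.map_nil, List.prod_cons, List.prod_nil, mul_one, hc0, hc0', hck]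
    have hlen : ((List.replicate (a + κ) c0' ++ [ck] ++
      List.replicate (a + b - 1 - k) c0).length : ℝ) = 2 * (a : ℝ) + b + κ - k := by
      simp only [List.length_append, List.length_replicate, List.length_cons, List.length_nil]
      push_cast [Nat.cast_sub hk, Nat.cast_sub (show 1 ≤ a + b by omega)]
      ring
    rw [hlen] at hl
    have hk' : (k : ℝ) ≤ a + b - 1 := by
      have : (k : ℝ) + 1 ≤ a + b := by exact_mod_cast (by omega : k + 1 ≤ a + b)
      linarith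
    have hk0 : (0 : ℝ) ≤ k := Nat.cast_nonneg k
    have h2 : lam * (2 * (a : ℝ) + b + κ - k) ≤ 2 * (2 * a + b + κ) - k := by nlinarith
    refine ⟨u, hu, hE, ?_, by linarith, hl⟩
    apply nb_of_short hn hE
    have h1 : (u.length : ℝ) + 4 * (2 * (n + 1 + K) + 1) <
        3 * a + 2 * b - 2 + (a + b - κ - k) := by
      linarith
    have h3 : (u.length : ℤ) + 4 * (2 * (n + 1 + K) + 1) <
        3 * a + 2 * b - 2 + (a + b - κ - k) := by
      exact_mod_cast h1
    exact h3.trans_le (SS_E10 hκ hκb hab hk)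
  -- one step of the chain
  have step : ∀ (E E' : TF) (x : ℤ), (E' = E ∨ ∃ c, E' = E * ι c) →
      (∃ u ∈ L, (u.map ι).prod = E ∧ NB n K ι a b u ∧ (u.length : ℝ) ≤ Λ ∧ Xw ι a b u = x) →
      ∀ v ∈ L, (v.length : ℝ) ≤ Λ → (v.map ι).prod = E' →
        Xw ι a b v = x - hh (act E ((b : ℤ) : ℚ)) *
        (hh (act E ((-(a : ℤ) : ℤ) : ℚ)) - hh (act E' ((-(a : ℤ) : ℤ) : ℚ))) := by
    rintro E E' x hEE ⟨u, hu, hE, hnb, hul, hx⟩ v hv hvl hE'
    have hf : Fellow ι ((u.length + v.length) / (128 * (m + 1)) + D) u v := by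
      apply hF u hu v hv
      rw [hE, hE']
      rcases hEE with h | ⟨c, h⟩
      · left; rw [h, inv_mul_cancel]
      · right; exact ⟨c, by rw [h, inv_mul_cancel_left]⟩
    have hM : ((u.length : ℝ) + v.length) / (128 * (m + 1)) + D ≤ K := by
      refine le_trans ?_ hK1
      have := div_le_div_of_nonneg_right (show (u.length : ℝ) + v.length ≤ Λ + Λ by linarith) hm1.le
      linarith
    have h1 := transport hn hf hM hnb
    rw [hE, hE', hx] at h1
    linarith
  have ha0 : hh (act (E01 b κ (a + b)) ((-(a : ℤ) : ℤ) : ℚ)) = 0 := hh_zero (E01_a hκ hκb hab _)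
  -- the first family
  have P01 : ∀ k ≤ a + b, ∀ v ∈ L, (v.length : ℝ) ≤ Λ → (v.map ι).prod = E01 b κ k →
      Xw ι a b v = 0 := by
    intro k
    induction k with
    | zero =>
      intro _ v hv hvl hE
      obtain ⟨u, hu, hEu, hnb, hul, hlen⟩ := G01 0 (by omega)
      have h1 : Xw ι a b u = 0 := by
        apply Xw_end1 hn hκ hκb hEu
        have h2 : (u.length : ℝ) < 2 * a := by
          have h3 : lam * ((b : ℝ) - κ + 1 + (0 : ℕ)) ≤ 2 * b := by push_cast; nlinarith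
          linarith
        exact_mod_cast h2
      have h2 := step _ _ 0 (Or.inl rfl) ⟨u, hu, hEu, hnb, hul, h1⟩ v hv hvl hE
      rw [h2]; ring
    | succ k ih =>
      intro hk v hv hvl hE
      obtain ⟨u, hu, hEu, hnb, hul, -⟩ := G01 k (by omega)
      have h1 := ih (by omega) u hu hul hEu
      have h2 := step _ _ 0 (Or.inr ⟨c0', by rw [hc0']; exact E01_succ k⟩)
        ⟨u, hu, hEu, hnb, hul, h1⟩ v hv hvl hE
      rw [h2, hh_zero (E01_a hκ hκb hab k), hh_zero (E01_a hκ hκb hab (k + 1))]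
      ring
  -- the second family
  have P11 : ∀ j ≤ a + b - 1, ∀ v ∈ L, (v.length : ℝ) ≤ Λ → (v.map ι).prod = E11 a b κ j →
      Xw ι a b v = 1 := by
    intro j
    induction j with
    | zero =>
      intro _ v hv hvl hE
      obtain ⟨u, hu, hEu, hnb, hul, -⟩ := G01 (a + b) le_rfl
      have h1 := P01 (a + b) le_rfl u hu hul hEu
      have h2 := step _ _ 0 (Or.inr ⟨ck, by rw [hck]; exact E11_zero⟩)
        ⟨u, hu, hEu, hnb, hul, h1⟩ v hv hvl hE
      rw [h2, ha0, hh_one (E01_b hκ hκb (a + b)), hh_one (E11_a hκ hκb hab 0)]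
      norm_num
    | succ j ih =>
      intro hj v hv hvl hE
      obtain ⟨u, hu, hEu, hnb, hul⟩ := G11 j (by omega)
      have h1 := ih (by omega) u hu hul hEu
      have h2 := step _ _ 1 (Or.inr ⟨c0, by rw [hc0]; exact E11_succ j⟩)
        ⟨u, hu, hEu, hnb, hul, h1⟩ v hv hvl hE
      rw [h2, hh_one (E11_a hκ hκb hab j), hh_one (E11_a hκ hκb hab (j + 1))]
      ring
  -- the third family
  have P10 : ∀ k ≤ a + b - 1, ∀ v ∈ L, (v.length : ℝ) ≤ Λ → (v.map ι).prod = E10 a b κ k →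
      Xw ι a b v = 1 := by
    intro k
    induction k with
    | zero =>
      intro hk v hv hvl hE
      obtain ⟨u, hu, hEu, hnb, hul⟩ := G11 (a + b - 1) le_rfl
      have h1 := P11 (a + b - 1) le_rfl u hu hul hEu
      have h2 := step _ _ 1 (Or.inr ⟨ck', by rw [hck']; exact E10_zero hκ hκb hab⟩)
        ⟨u, hu, hEu, hnb, hul, h1⟩ v hv hvl hE
      rw [h2, hh_one (E11_a hκ hκb hab (a + b - 1)), hh_one (E10_a hκ hab (k := 0) hk)]
      ring
    | succ k ih =>
      intro hk v hv hvl hE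
      obtain ⟨u, hu, hEu, hnb, hul, -⟩ := G10 k (by omega)
      have h1 := ih (by omega) u hu hul hEu
      have h2 := step _ _ 1 (Or.inr ⟨c0', by rw [hc0']; exact E10_succ hk⟩)
        ⟨u, hu, hEu, hnb, hul, h1⟩ v hv hvl hE
      rw [h2, hh_one (E10_a hκ hab (k := k) (by omega)), hh_one (E10_a hκ hab (k := k + 1) hk)]
      ring
  -- the contradiction at the end of the chain
  obtain ⟨u, hu, hEu, hnb, hul, hlen⟩ := G10 (a + b - 1) le_rfl
  have h1 := P10 (a + b - 1) le_rfl u hu hul hEu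
  have h2 : Xw ι a b u = 0 := by
    apply Xw_end2 hn hκ hκb hab hEu
    have h3 : (u.length : ℝ) + 6 * (2 * n + 3) < 3 * a := by
      rw [Nat.cast_sub (show 1 ≤ a + b by omega)] at hlen
      push_cast at hlen
      have h4 : lam * (2 * (a : ℝ) + b + κ - (a + b - 1)) ≤ 2 * (a + κ + 1) := by nlinarith
      linarith
    exact_mod_cast h3
  rw [h1] at h2
  norm_num at h2

/-- The main theorem. -/
theorem main (lam : ℝ) (hlam : lam < 2) : ∃ ε : ℝ, 0 < ε ∧
    ∀ (A : Type) [Finite A] (ι : A → TF), (∀ a, ∃ i, ι a = gx i ∨ ι a = (gx i)⁻¹) →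
    (∀ a, ∃ b, ι b = (ι a)⁻¹) → ∀ L : Set (List A), (∀ g, ∃ u ∈ L, (u.map ι).prod = g) →
    ∀ C D : ℝ, (∀ u ∈ L, ∀ v ∈ L, ((u.map ι).prod⁻¹ * (v.map ι).prod = 1 ∨
      ∃ a, (u.map ι).prod⁻¹ * (v.map ι).prod = ι a) →
        Fellow ι (ε * (u.length + v.length) + D) u v) →
    ∃ w : List A, ∀ u ∈ L, (u.map ι).prod = (w.map ι).prod →
      lam * w.length + C < u.length := by
  obtain ⟨m, hm3, hmlam⟩ := exists_slope (max lam 1) (max_lt hlam (by norm_num))
  have hm1 : (0 : ℝ) < 128 * (m + 1) := by positivity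
  refine ⟨1 / (128 * (m + 1)), by positivity, ?_⟩
  intro A _ ι hι hinv L hL C D hF
  obtain ⟨w, hw⟩ := main_aux (lam := max lam 1) (max_lt hlam (by norm_num)) (le_max_right _ _)
    hm3 hmlam ι hι hinv L hL (C := max C 0) (D := max D 0) (le_max_right _ _) (le_max_right _ _)
    (fun u hu v hv h => by
      obtain ⟨φ, ψ, h1, h2, h3, h4, h5, h6⟩ := hF u hu v hv h
      refine ⟨φ, ψ, h1, h2, h3, h4, h5, fun t => ?_⟩
      obtain ⟨w, hw1, hw2⟩ := h6 t
      refine ⟨w, ?_, hw2⟩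
      have e : 1 / (128 * ((m : ℝ) + 1)) * (u.length + v.length) =
          (u.length + v.length) / (128 * (m + 1)) := by ring
      rw [e] at hw1
      linarith [le_max_left D 0])
  refine ⟨w, fun u hu he => lt_of_le_of_lt ?_ (hw u hu he)⟩
  have h1 : lam * (w.length : ℝ) ≤ max lam 1 * w.length :=
    mul_le_mul_of_nonneg_right (le_max_left _ _) (Nat.cast_nonneg _)
  linarith [le_max_left C 0]

end Pool.Agent.Lib.MP_566f59_al
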