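import Pool.Agent.Lib.MP_566f59_al.Lev

/-!
# Paths and lower bounds for their lengths
-/

set_option autoImplicit false

namespace Pool.Agent.Lib.MP_566f59_al

open Finset

/-- A path in the group starting at `1`, with steps in the generators of index at most `n` or trivial. -/
structure IsPath (n : ℕ) (gs : ℕ → TF) : Prop where
  zero : gs 0 = 1
  step : ∀ t, Gen n ((gs t)⁻¹ * gs (t + 1))

variable {n : ℕ} {gs : ℕ → TF}

theorem act_ratio (g h : TF) (y : ℚ) : act h y = act (g⁻¹ * h) (act g y) := by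
  rw [← act_mul, mul_inv_cancel_left]

theorem PP_nonneg (y : ℚ) : 0 ≤ PP y := by
  rcases PP_range y with h | h | h <;> rw [h] <;> norm_num

theorem IsPath.act_zero (h : IsPath n gs) (y : ℚ) : act (gs 0) y = y := by
  rw [h.zero, act_one]

/-- At every time there is one point `e` such that only at `e` levels change, and by one. -/
theorem IsPath.change (h : IsPath n gs) (t : ℕ) : ∃ e : ℚ, e ≤ n + 1 ∧
    ∀ y : ℚ, (act (gs t) y ≠ e → PP (act (gs (t + 1)) y) = PP (act (gs t) y)) ∧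
      |PP (act (gs (t + 1)) y) - PP (act (gs t) y)| ≤ 1 := by
  obtain ⟨e, h1, h2⟩ := one_step (h.step t)
  refine ⟨e, h1, fun y => ?_⟩
  rw [act_ratio (gs t) (gs (t + 1)) y]
  exact h2 _

theorem IsPath.one (h : IsPath n gs) (I : Finset ℤ) (t : ℕ) :
    ∑ i ∈ I, |PP (act (gs (t + 1)) (i : ℚ)) - PP (act (gs t) (i : ℚ))| ≤ 1 := by
  classical
  obtain ⟨e, -, h2⟩ := h.change t
  have h3 : ∀ i ∈ I, |PP (act (gs (t + 1)) (i : ℚ)) - PP (act (gs t) (i : ℚ))| ≤
      if act (gs t) (i : ℚ) = e then 1 else 0 := by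
    intro i _
    by_cases h4 : act (gs t) (i : ℚ) = e
    · rw [if_pos h4]; exact (h2 i).2
    · rw [if_neg h4, (h2 i).1 h4, sub_self, abs_zero]
  refine (Finset.sum_le_sum h3).trans ?_
  rw [Finset.sum_boole]
  have h5 : (I.filter fun i : ℤ => act (gs t) (i : ℚ) = e).card ≤ 1 := by
    rw [Finset.card_le_one]
    intro x hx y hy
    rw [Finset.mem_filter] at hx hy
    have := act_inj (gs t) (hx.2.trans hy.2.symm)
    exact_mod_cast this
  exact_mod_cast h5

theorem IsPath.seg (h : IsPath n gs) (I : Finset ℤ) {s t : ℕ} (hst : s ≤ t) :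
    ∑ i ∈ I, |PP (act (gs t) (i : ℚ)) - PP (act (gs s) (i : ℚ))| ≤ (t : ℤ) - s := by
  induction t, hst using Nat.le_induction with
  | base => simp
  | succ t hst ih =>
    have h1 : ∑ i ∈ I, |PP (act (gs (t + 1)) (i : ℚ)) - PP (act (gs s) (i : ℚ))| ≤
        ∑ i ∈ I, |PP (act (gs (t + 1)) (i : ℚ)) - PP (act (gs t) (i : ℚ))| +
          ∑ i ∈ I, |PP (act (gs t) (i : ℚ)) - PP (act (gs s) (i : ℚ))| := by
      rw [← Finset.sum_add_distrib]
      exact Finset.sum_le_sum fun i _ => abs_sub_le _ _ _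
    have h2 := h.one I t
    push_cast
    linarith

/-- Levels pass through `1` on the way from `0` to `2`. -/
theorem IsPath.via_one (h : IsPath n gs) {y : ℚ} (h0 : PP y = 0) {t : ℕ}
    (ht : PP (act (gs t) y) = 2) : ∃ s ≤ t, PP (act (gs s) y) = 1 := by
  by_contra hne
  push Not at hne
  have h1 : ∀ s ≤ t, PP (act (gs s) y) = 0 := by
    intro s
    induction s with
    | zero => intro _; rw [h.act_zero]; exact h0
    | succ s ih =>
      intro hs
      have h2 := ih (by omega)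
      obtain ⟨e, -, h3⟩ := h.change s
      have h4 := (h3 y).2
      rw [h2, sub_zero] at h4
      have h5 := hne (s + 1) hs
      rcases PP_range (act (gs (s + 1)) y) with h6 | h6 | h6
      · exact h6
      · exact absurd h6 h5
      · rw [h6] at h4; norm_num at h4
  have h2 := h1 t le_rfl
  rw [ht] at h2
  norm_num at h2

/-- A discrete intermediate value principle. -/
theorem exists_switch {Q : ℕ → Prop} {s t : ℕ} (hst : s ≤ t) (hs : Q s) (ht : ¬ Q t) :
    ∃ r, s ≤ r ∧ r < t ∧ Q r ∧ ¬ Q (r + 1) := by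
  by_contra hne
  push Not at hne
  have h1 : ∀ r, s ≤ r → r ≤ t → Q r := by
    intro r hr
    induction r, hr using Nat.le_induction with
    | base => intro _; exact hs
    | succ r hr ih =>
      intro h2
      exact hne r hr (by omega) (ih (by omega))
  exact ht (h1 t hst le_rfl)

theorem IsPath.change_le (h : IsPath n gs) {t : ℕ} {y : ℚ}
    (hne : PP (act (gs (t + 1)) y) ≠ PP (act (gs t) y)) : act (gs t) y ≤ n + 1 := by
  obtain ⟨e, h1, h2⟩ := h.change t
  by_contra h3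
  exact hne ((h2 y).1 (fun h4 => h3 (h4 ▸ h1)))

/-- Only one point changes at a time. -/
theorem IsPath.change_unique (h : IsPath n gs) {t : ℕ} {x y : ℚ} (hxy : x ≠ y)
    (hne : PP (act (gs (t + 1)) x) ≠ PP (act (gs t) x)) :
    PP (act (gs (t + 1)) y) = PP (act (gs t) y) := by
  obtain ⟨e, h1, h2⟩ := h.change t
  have h3 : act (gs t) x = e := by
    by_contra h3
    exact hne ((h2 x).1 h3)
  apply (h2 y).1
  intro h4
  exact hxy (act_inj (gs t) (h3.trans h4.symm))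

/-- Few integers are moved to integers of small size. -/
theorem few (g : TF) (I : Finset ℤ) (R : ℕ) (J : Finset ℤ) (hJ : ∀ i ∈ J, i ∈ I ∧
    isZ (act g (i : ℚ)) ∧ |act g (i : ℚ)| ≤ R) : (J.card : ℤ) ≤ 2 * R + 1 := by
  have h1 : J.card ≤ (Finset.Icc (-(R : ℤ)) R).card := by
    refine Finset.card_le_card_of_injOn (fun i => ⌊act g (i : ℚ)⌋) ?_ ?_
    · intro i hi
      obtain ⟨_, ⟨z, hz⟩, h3⟩ := hJ i hi
      rw [← hz, abs_le] at h3
      simp only [Finset.coe_Icc, Set.mem_Icc]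
      rw [← hz, Int.floor_intCast]
      exact ⟨by exact_mod_cast h3.1, by exact_mod_cast h3.2⟩
    · intro i hi j hj hij
      obtain ⟨_, ⟨z, hz⟩, _⟩ := hJ i hi
      obtain ⟨_, ⟨w, hw⟩, _⟩ := hJ j hj
      simp only at hij
      rw [← hz, ← hw, Int.floor_intCast, Int.floor_intCast] at hij
      have h4 : act g (i : ℚ) = act g (j : ℚ) := by rw [← hz, ← hw, hij]
      exact_mod_cast act_inj g h4
  rw [Int.card_Icc] at h1
  have h2 : ((R : ℤ) + 1 - -(R : ℤ)).toNat = 2 * R + 1 := by omega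
  rw [h2] at h1
  exact_mod_cast h1

/-- Bridging is expensive. -/
theorem IsPath.bridge (h : IsPath n gs) {t T : ℕ} (htT : t ≤ T) {a b : ℤ} {R : ℕ}
    (ha : |act (gs t) (a : ℚ)| ≤ R) (hb : |act (gs t) (b : ℚ)| ≤ R) :
    ∑ i ∈ Finset.Ioo a b, (2 - PP (i : ℚ)) + ∑ i ∈ Finset.Ioo a b, (2 - PP (act (gs T) (i : ℚ))) ≤
      (T : ℤ) + 4 * (2 * R + 1) := by
  classical
  set I := Finset.Ioo a b with hI
  set J := I.filter fun i : ℤ => isZ (act (gs t) (i : ℚ)) with hJ
  have hJc : (J.card : ℤ) ≤ 2 * R + 1 := by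
    refine few (gs t) I R J fun i hi => ?_
    rw [hJ, Finset.mem_filter] at hi
    refine ⟨hi.1, hi.2, ?_⟩
    have h1 := Finset.mem_Ioo.mp hi.1
    have h2 : act (gs t) (a : ℚ) < act (gs t) (i : ℚ) :=
      act_strictMono _ (by exact_mod_cast h1.1)
    have h3 : act (gs t) (i : ℚ) < act (gs t) (b : ℚ) :=
      act_strictMono _ (by exact_mod_cast h1.2)
    rw [abs_le] at ha hb ⊢
    exact ⟨by linarith, by linarith⟩
  have h1 := h.seg I (Nat.zero_le t)
  have h2 := h.seg I htT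
  have h3 : ∀ i ∈ I, (2 - PP (i : ℚ)) + (2 - PP (act (gs T) (i : ℚ))) ≤
      |PP (act (gs t) (i : ℚ)) - PP (act (gs 0) (i : ℚ))| +
        |PP (act (gs T) (i : ℚ)) - PP (act (gs t) (i : ℚ))| +
          (if isZ (act (gs t) (i : ℚ)) then 4 else 0) := by
    intro i _
    rw [h.act_zero]
    by_cases h4 : isZ (act (gs t) (i : ℚ))
    · rw [if_pos h4]
      have e1 := abs_nonneg (PP (act (gs t) (i : ℚ)) - PP (i : ℚ))
      have e2 := abs_nonneg (PP (act (gs T) (i : ℚ)) - PP (act (gs t) (i : ℚ)))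
      have e3 := PP_nonneg (i : ℚ)
      have e4 := PP_nonneg (act (gs T) (i : ℚ))
      linarith
    · rw [if_neg h4, PP_non h4]
      have e1 := le_abs_self (2 - PP (i : ℚ))
      have e2 := neg_le_abs (PP (act (gs T) (i : ℚ)) - 2)
      linarith
  have h4 := Finset.sum_le_sum h3
  rw [Finset.sum_add_distrib, Finset.sum_add_distrib, Finset.sum_add_distrib] at h4
  have h5 : ∑ i ∈ I, (if isZ (act (gs t) (i : ℚ)) then (4 : ℤ) else 0) = 4 * J.card := by
    rw [← Finset.sum_filter, Finset.sum_const, ← hJ, nsmul_eq_mul]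
    ring
  rw [h5] at h4
  push_cast at h1
  linarith

/-- The sum of the levels. -/
theorem low_sum {a b : ℤ} (f : ℤ → ℤ) (hf : ∀ i ∈ Finset.Ioo a b, f i ≤ 1) :
    b - a - 1 ≤ ∑ i ∈ Finset.Ioo a b, (2 - f i) := by
  have h1 : ∑ i ∈ Finset.Ioo a b, (1 : ℤ) ≤ ∑ i ∈ Finset.Ioo a b, (2 - f i) :=
    Finset.sum_le_sum fun i hi => by linarith [hf i hi]
  rw [Finset.sum_const, nsmul_eq_mul, mul_one, Int.card_Ioo] at h1
  omega

theorem low_sum' {a b d : ℤ} (hd : d < b) (f : ℤ → ℤ) (hf : ∀ i ∈ Finset.Ioo a b, f i ≤ 1)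
    (hf0 : ∀ i ∈ Finset.Ioo a b, i ≤ d → f i ≤ 0) :
    (b - a - 1) + (d - a) ≤ ∑ i ∈ Finset.Ioo a b, (2 - f i) := by
  classical
  have h1 : ∑ i ∈ Finset.Ioo a b, ((1 : ℤ) + if i ≤ d then 1 else 0) ≤
      ∑ i ∈ Finset.Ioo a b, (2 - f i) := by
    refine Finset.sum_le_sum fun i hi => ?_
    by_cases h : i ≤ d
    · rw [if_pos h]; linarith [hf0 i hi h]
    · rw [if_neg h]; linarith [hf i hi]
  rw [Finset.sum_add_distrib, Finset.sum_const, nsmul_eq_mul, mul_one, Int.card_Ioo,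
    ← Finset.sum_filter, Finset.sum_const, nsmul_eq_mul, mul_one] at h1
  have h2 : Finset.Ioc a d ⊆ (Finset.Ioo a b).filter fun i => i ≤ d := by
    intro i hi
    rw [Finset.mem_Ioc] at hi
    rw [Finset.mem_filter, Finset.mem_Ioo]
    exact ⟨⟨hi.1, by omega⟩, hi.2⟩
  have h3 := Finset.card_le_card h2
  rw [Int.card_Ioc] at h3
  omega

/-- First forced end. -/
theorem IsPath.end1 (h : IsPath n gs) {t T : ℕ} (htT : t ≤ T) {A : ℕ}
    (hfin : ∀ i ∈ Finset.Ioc (-(A : ℤ)) 0, PP (act (gs T) (i : ℚ)) = 0)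
    (ht : PP (act (gs t) (-(A : ℤ) : ℤ)) = 2) : 2 * (A : ℤ) ≤ T := by
  have h0 : PP ((-(A : ℤ) : ℤ) : ℚ) = 0 := PP_low (isZ_int _) (by push_cast; linarith [Nat.cast_nonneg (α := ℚ) A])
  obtain ⟨s, hst, hs⟩ := h.via_one h0 ht
  set I := Finset.Ioc (-(A : ℤ)) 0 with hI
  have h1 := h.seg I (Nat.zero_le s)
  have h2 := h.seg I (hst.trans htT)
  have h3 : ∀ i ∈ I, (2 : ℤ) ≤ |PP (act (gs s) (i : ℚ)) - PP (act (gs 0) (i : ℚ))| +
      |PP (act (gs T) (i : ℚ)) - PP (act (gs s) (i : ℚ))| := by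
    intro i hi
    have hi' := Finset.mem_Ioc.mp hi
    rw [h.act_zero, hfin i hi, PP_low (isZ_int i) (by exact_mod_cast hi'.2)]
    have h4 : 0 < act (gs s) (i : ℚ) := lt_trans (PP_eq_one hs).2
      (act_strictMono _ (by exact_mod_cast hi'.1))
    rcases PP_pos h4 with h5 | h5 <;> rw [h5] <;> norm_num
  have h4 := Finset.sum_le_sum h3
  rw [Finset.sum_add_distrib, Finset.sum_const, nsmul_eq_mul, Int.card_Ioc] at h4
  push_cast at h1
  have h5 : ((0 - -(A : ℤ)).toNat : ℤ) = A := by omega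
  rw [h5] at h4
  linarith

/-- Points to the left of a small point are at level `1` only for few integers. -/
theorem few_one (g : TF) {A : ℕ} {B : ℤ} (hB : 0 < B) (hb : act g (B : ℚ) ≤ n + 1)
    (J : Finset ℤ) (hJ : ∀ i ∈ J, i ∈ Finset.Ioc (-(A : ℤ)) 0 ∧ PP (act g (i : ℚ)) = 1) :
    (J.card : ℤ) ≤ 2 * n + 3 := by
  have h1 := few g (Finset.Ioc (-(A : ℤ)) 0) (n + 1) J (fun i hi => by
    obtain ⟨h2, h3⟩ := hJ i hi
    obtain ⟨h4, h5⟩ := PP_eq_one h3
    refine ⟨h2, h4, ?_⟩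
    have h6 := Finset.mem_Ioc.mp h2
    have h7 : act g (i : ℚ) < act g (B : ℚ) := act_strictMono _ (by
      have : i < B := by omega
      exact_mod_cast this)
    rw [abs_le]
    push_cast
    exact ⟨by linarith, by linarith⟩)
  push_cast at h1
  linarith

/-- Second forced end. -/
theorem IsPath.end2 (h : IsPath n gs) {t T : ℕ} (htT : t < T) {A : ℕ} {B : ℤ} (hB : 0 < B)
    (hfin : ∀ i ∈ Finset.Ioc (-(A : ℤ)) 0, PP (act (gs T) (i : ℚ)) = 1)
    (hfinb : PP (act (gs T) (B : ℚ)) ≠ 2)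
    (hbt : PP (act (gs t) (B : ℚ)) = 2)
    (hat : ¬ (PP (act (gs t) (-(A : ℤ) : ℤ)) = 2 ↔ PP (act (gs (t + 1)) (-(A : ℤ) : ℤ)) = 2)) :
    3 * (A : ℤ) ≤ T + 6 * (2 * n + 3) := by
  classical
  -- the time `s` at which the left lamp is a positive integer and the right lamp is on
  have hs : ∃ s ≤ T, PP (act (gs s) (-(A : ℤ) : ℤ)) = 1 ∧ PP (act (gs s) (B : ℚ)) = 2 := by
    obtain ⟨e, -, h3⟩ := h.change t
    have h4 := (h3 ((-(A : ℤ) : ℤ) : ℚ)).2
    have hne : PP (act (gs (t + 1)) (-(A : ℤ) : ℤ)) ≠ PP (act (gs t) (-(A : ℤ) : ℤ)) := by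
      intro e
      rw [e] at hat
      exact hat Iff.rfl
    have h5 := h.change_unique (y := (B : ℚ)) (by
      have h6 : (-(A : ℤ) : ℤ) ≠ B := by omega
      exact_mod_cast h6) hne
    rw [abs_le] at h4
    rcases PP_range (act (gs t) (-(A : ℤ) : ℤ)) with h6 | h6 | h6 <;>
      rcases PP_range (act (gs (t + 1)) (-(A : ℤ) : ℤ)) with h7 | h7 | h7 <;>
      rw [h6, h7] at h4 hat
    · exact absurd Iff.rfl hat
    · exact absurd (by norm_num) hat
    · omega
    · exact absurd (by norm_num) hat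
    · exact absurd Iff.rfl hat
    · exact ⟨t, htT.le, h6, hbt⟩
    · omega
    · exact ⟨t + 1, htT, h7, h5.trans hbt⟩
    · exact absurd Iff.rfl hat
  obtain ⟨s, hsT, hs1, hs2⟩ := hs
  have hB0 : PP (act (gs 0) (B : ℚ)) ≠ 2 := by
    rw [h.act_zero, PP_high (isZ_int B) (by exact_mod_cast hB)]
    norm_num
  obtain ⟨r, _, hrs, hr1, hr2⟩ := exists_switch (Q := fun r => PP (act (gs r) (B : ℚ)) ≠ 2)
    (Nat.zero_le s) hB0 (fun h9 => h9 hs2)
  obtain ⟨q, hsq, hqT, hq1, hq2⟩ := exists_switch (Q := fun r => PP (act (gs r) (B : ℚ)) = 2)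
    hsT hs2 hfinb
  simp only [not_not] at hr2
  have hrn : act (gs r) (B : ℚ) ≤ n + 1 := h.change_le (by rw [hr2]; exact fun e => hr1 e.symm)
  have hqn : act (gs q) (B : ℚ) ≤ n + 1 := h.change_le (by
    rw [hq1]; exact hq2)
  set I := Finset.Ioc (-(A : ℤ)) 0 with hI
  set J0 := I.filter fun i : ℤ => PP (act (gs r) (i : ℚ)) = 1 with hJ0
  set J1 := I.filter fun i : ℤ => PP (act (gs q) (i : ℚ)) = 1 with hJ1
  have c0 : (J0.card : ℤ) ≤ 2 * n + 3 := few_one (A := A) (gs r) hB hrn J0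
    (fun i hi => Finset.mem_filter.mp hi)
  have c1 : (J1.card : ℤ) ≤ 2 * n + 3 := few_one (A := A) (gs q) hB hqn J1
    (fun i hi => Finset.mem_filter.mp hi)
  have h1 := h.seg I (Nat.zero_le r)
  have h2 := h.seg I hrs.le
  have h3 := h.seg I hsq
  have h4 := h.seg I hqT.le
  have h5 : ∀ i ∈ I, (3 : ℤ) ≤ |PP (act (gs r) (i : ℚ)) - PP (act (gs 0) (i : ℚ))| +
      |PP (act (gs s) (i : ℚ)) - PP (act (gs r) (i : ℚ))| +
      |PP (act (gs q) (i : ℚ)) - PP (act (gs s) (i : ℚ))| +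
      |PP (act (gs T) (i : ℚ)) - PP (act (gs q) (i : ℚ))| +
      (if PP (act (gs r) (i : ℚ)) = 1 then 3 else 0) +
      (if PP (act (gs q) (i : ℚ)) = 1 then 3 else 0) := by
    intro i hi
    have hi' := Finset.mem_Ioc.mp hi
    have h6 : 0 < act (gs s) (i : ℚ) := lt_trans (PP_eq_one hs1).2
      (act_strictMono _ (by exact_mod_cast hi'.1))
    rw [h.act_zero, hfin i hi, PP_low (isZ_int i) (by exact_mod_cast hi'.2)]
    rcases PP_pos h6 with h7 | h7 <;> rcases PP_range (act (gs r) (i : ℚ)) with h8 | h8 | h8 <;>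
      rcases PP_range (act (gs q) (i : ℚ)) with h9 | h9 | h9 <;> rw [h7, h8, h9] <;> norm_num
  have h6 := Finset.sum_le_sum h5
  simp only [Finset.sum_add_distrib] at h6
  rw [Finset.sum_const, nsmul_eq_mul, Int.card_Ioc, ← Finset.sum_filter, ← Finset.sum_filter,
    Finset.sum_const, Finset.sum_const, nsmul_eq_mul, nsmul_eq_mul] at h6
  have h7 : ((0 - -(A : ℤ)).toNat : ℤ) = A := by omega
  rw [h7] at h6
  push_cast at h1
  linarith

end Pool.Agent.Lib.MP_566f59_al
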